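import Pool.Agent.Lib.MP_990519_co.EF.Defs

/-! Three translates of a triple in a long chain; a rank obstruction. -/

open Finset Complex
open scoped ComplexConjugate Classical

namespace Pool.Agent.Lib.MP_990519_co.EF

theorem ch_gap (f : ℕ → ℤ) (m k D : ℕ) (h1 : ∀ i < m, f i ≤ f (i + 2))
    (h2 : ∀ i < m + 2, ∀ j < m + 2, f j - f i ≤ k) :
    D * #{i ∈ range m | (D : ℤ) < f (i + 2) - f i} ≤ 2 * k := by
  have e : ∑ i ∈ range m, (f (i + 2) - f i) = f (m + 1) - f 1 + (f m - f 0) := by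
    rw [← sum_range_sub (fun i => f (i + 1)), ← sum_range_sub f, ← sum_add_distrib]
    exact sum_congr rfl fun i _ => by ring
  have a1 := card_nsmul_le_sum {i ∈ range m | (D : ℤ) < f (i + 2) - f i}
    (fun i => f (i + 2) - f i) D fun i hi => (mem_filter.1 hi).2.le
  have a2 : ∑ i ∈ range m with (D : ℤ) < f (i + 2) - f i, (f (i + 2) - f i) ≤
      ∑ i ∈ range m, (f (i + 2) - f i) := sum_le_sum_of_subset_of_nonneg (filter_subset _ _)
    fun i hi _ => sub_nonneg.2 (h1 i (mem_range.1 hi))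
  have a3 := h2 1 (by omega) (m + 1) (by omega)
  have a4 := h2 0 (by omega) m (by omega)
  rw [nsmul_eq_mul] at a1
  have : ((D * #{i ∈ range m | (D : ℤ) < f (i + 2) - f i} : ℕ) : ℤ) ≤ (2 * k : ℕ) := by
    push_cast; linarith
  exact_mod_cast this

theorem ch_enum (Z : Finset (ℤ × ℤ))
    (h : ∀ p ∈ Z, ∀ q ∈ Z, p ≠ q → (p.1 < q.1 ∧ p.2 < q.2) ∨ (q.1 < p.1 ∧ q.2 < p.2)) :
    ∃ z : ℕ → ℤ × ℤ, (∀ i < #Z, z i ∈ Z) ∧
      ∀ i j, i < j → j < #Z → (z i).1 < (z j).1 ∧ (z i).2 < (z j).2 := by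
  have inj : Set.InjOn Prod.fst (Z : Set (ℤ × ℤ)) := fun p hp q hq e => by
    by_contra hh
    have := h p hp q hq hh
    omega
  have ex : ∀ x ∈ Z.image Prod.fst, ∃ p ∈ Z, p.1 = x := fun x hx => mem_image.1 hx
  choose! g g1 g2 using ex
  have c := card_image_of_injOn inj
  set o := (Z.image Prod.fst).orderEmbOfFin c with ho
  have om : ∀ i, o i ∈ Z.image Prod.fst := fun i => orderEmbOfFin_mem _ _ i
  refine ⟨fun i => if hi : i < #Z then g (o ⟨i, hi⟩) else 0, fun i hi => ?_, fun i j hij hj => ?_⟩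
  · simp only [hi, dif_pos]; exact g1 _ (om _)
  · have hi : i < #Z := hij.trans hj
    simp only [hi, hj, dif_pos]
    have a1 : o ⟨i, hi⟩ < o ⟨j, hj⟩ := o.strictMono hij
    rw [← g2 _ (om ⟨i, hi⟩), ← g2 _ (om ⟨j, hj⟩)] at a1
    have := h _ (g1 _ (om ⟨i, hi⟩)) _ (g1 _ (om ⟨j, hj⟩)) fun e => by rw [e] at a1; omega
    omega

theorem ch_tri {a b c : ℤ × ℤ} (e1 : a ≠ b) (e2 : a ≠ c) (e3 : b ≠ c) :
    Function.Injective ![a, b, c] := by
  intro s t e
  fin_cases s <;> fin_cases t <;> simp_all [eq_comm]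

theorem chain3 {η : ℝ} (hη : 0 < η) : ∃ k0 : ℕ, ∀ k : ℕ, k0 ≤ k → ∀ Z : Finset (ℤ × ℤ),
    (∀ p ∈ Z, ∀ q ∈ Z, p ≠ q → (p.1 < q.1 ∧ p.2 < q.2) ∨ (q.1 < p.1 ∧ q.2 < p.2)) →
    (∀ p ∈ Z, ∀ q ∈ Z, q.1 - p.1 ≤ k ∧ q.2 - p.2 ≤ k) → η * k < #Z →
    ∃ b d : Fin 3 → ℤ × ℤ, Function.Injective b ∧ Function.Injective d ∧
      ∀ s t, b s + d t ∈ Z := by
  obtain ⟨L, hL⟩ := exists_nat_gt (1 / η)
  have L1 : 1 < η * L := by rwa [div_lt_iff₀' hη] at hL
  set W : Finset (ℤ × ℤ) := Icc 0 (8 * L : ℤ) ×ˢ Icc 0 (8 * L : ℤ) with hW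
  refine ⟨2 * L * (2 * #(W ×ˢ W) + 3), fun k hk Z h1 h2 h3 => ?_⟩
  have Lp : 0 < L := by
    rcases L with _ | L
    · norm_num at L1
    · omega
  have kZ : k ≤ L * #Z := by
    have : (k : ℝ) ≤ L * #Z := by
      have : (0 : ℝ) ≤ k := Nat.cast_nonneg _
      have : (0 : ℝ) ≤ L := Nat.cast_nonneg _
      nlinarith
    exact_mod_cast this
  obtain ⟨z, z1, z2⟩ := ch_enum Z h1
  obtain ⟨m, hm⟩ : ∃ m, #Z = m + 2 := ⟨#Z - 2, by
    have : 2 ≤ #Z := by
      by_contra hh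
      have : L * #Z ≤ L * 1 := Nat.mul_le_mul_left _ (by omega)
      nlinarith
    omega⟩
  rw [hm] at z1 z2 kZ
  have g1 := ch_gap (fun i => (z i).1) m k (8 * L) (fun i hi => (z2 i (i + 2) (by omega) (by omega)).1.le)
    fun i hi j hj => (h2 _ (z1 i hi) _ (z1 j hj)).1
  have g2 := ch_gap (fun i => (z i).2) m k (8 * L) (fun i hi => (z2 i (i + 2) (by omega) (by omega)).2.le)
    fun i hi j hj => (h2 _ (z1 i hi) _ (z1 j hj)).2
  set X := ({i ∈ range m | (z (i + 1) - z i, z (i + 2) - z i) ∈ W ×ˢ W} : Finset ℕ) with hX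
  have sb : range m ⊆ X ∪ ({i ∈ range m | ((8 * L : ℕ) : ℤ) < (z (i + 2)).1 - (z i).1} ∪
      {i ∈ range m | ((8 * L : ℕ) : ℤ) < (z (i + 2)).2 - (z i).2}) := fun i hi => by
    have a0 := mem_range.1 hi
    have a1 := z2 i (i + 1) (by omega) (by omega)
    have a2 := z2 (i + 1) (i + 2) (by omega) (by omega)
    simp only [hX, hW, mem_union, mem_filter, hi, true_and, mem_product, mem_Icc, Prod.fst_sub,
      Prod.snd_sub]
    omega
  have c1 := (card_le_card sb).trans ((card_union_le _ _).trans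
    (add_le_add le_rfl (card_union_le _ _)))
  rw [card_range] at c1
  have c2 : #(W ×ˢ W) * 2 < #X := by
    refine lt_of_mul_lt_mul_left (a := 2 * L) ?_ (Nat.zero_le _)
    have := Nat.mul_le_mul_left (8 * L) c1
    nlinarith
  obtain ⟨w, -, hw⟩ := exists_lt_card_fiber_of_mul_lt_card_of_maps_to
    (f := fun i => (z (i + 1) - z i, z (i + 2) - z i)) (fun i (hi : i ∈ X) => (mem_filter.1 hi).2) c2
  obtain ⟨i, j, l, hi, hj, hl, n1, n2, n3⟩ := two_lt_card_iff.1 hw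
  have key : ∀ i ∈ ({i ∈ X | (z (i + 1) - z i, z (i + 2) - z i) = w} : Finset ℕ),
      i < m ∧ z i + w.1 = z (i + 1) ∧ z i + w.2 = z (i + 2) := fun i hi => by
    obtain ⟨a, b⟩ := mem_filter.1 hi
    exact ⟨mem_range.1 (mem_filter.1 a).1, by rw [← b]; simp, by rw [← b]; simp⟩
  have zi : ∀ i < m + 2, ∀ j < m + 2, i ≠ j → z i ≠ z j := fun i hi j hj e e' => by
    rcases lt_or_gt_of_ne e with a | a
    · exact (z2 i j a hj).1.ne (by rw [e'])
    · exact (z2 j i a hi).1.ne (by rw [e'])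
  obtain ⟨a1, a2, a3⟩ := key i hi
  obtain ⟨b1, b2, b3⟩ := key j hj
  obtain ⟨d1, d2, d3⟩ := key l hl
  refine ⟨![z i, z j, z l], ![0, w.1, w.2], ch_tri (zi _ (by omega) _ (by omega) n1)
    (zi _ (by omega) _ (by omega) n2) (zi _ (by omega) _ (by omega) n3), ch_tri (fun e => ?_)
    (fun e => ?_) (fun e => ?_), fun s t => ?_⟩
  · exact zi i (by omega) (i + 1) (by omega) (by omega) (by rw [← a2, ← e, add_zero])
  · exact zi i (by omega) (i + 2) (by omega) (by omega) (by rw [← a3, ← e, add_zero])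
  · exact zi (i + 1) (by omega) (i + 2) (by omega) (by omega) (by rw [← a2, ← a3, e])
  · have f : ∀ i < m, z i + w.1 = z (i + 1) → z i + w.2 = z (i + 2) →
        z i + ![0, w.1, w.2] t ∈ Z := fun i c1 c2 c3 => by
      fin_cases t
      · exact (add_zero (z i)).symm ▸ z1 _ (by omega)
      · exact c2 ▸ z1 _ (by omega)
      · exact c3 ▸ z1 _ (by omega)
    fin_cases s
    exacts [f i a1 a2 a3, f j b1 b2 b3, f l d1 d2 d3]

theorem ch_vdm {u : Fin 3 → ℂ} (hu : Function.Injective u) (u0 : ∀ s, u s ≠ 0) :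
    (Matrix.of fun s => ![u s, (u s)⁻¹, 1]).det ≠ 0 := by
  have a0 := u0 0
  have a1 := u0 1
  have a2 := u0 2
  have : (Matrix.of fun s => ![u s, (u s)⁻¹, 1]).det =
      (u 0 - u 1) * (u 0 - u 2) * (u 2 - u 1) / (u 0 * u 1 * u 2) := by
    simp [Matrix.det_fin_three]
    field_simp
    ring
  rw [this]
  exact div_ne_zero (mul_ne_zero (mul_ne_zero (sub_ne_zero.2 (hu.ne (by decide)))
    (sub_ne_zero.2 (hu.ne (by decide)))) (sub_ne_zero.2 (hu.ne (by decide)))) (by simp [a0, a1, a2])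

theorem ch_det (α β γ : ℂ) (U A : Matrix (Fin 3) (Fin 3) ℂ) :
    (Matrix.of fun s t => α * (U s 0 * A t 0) + β * (U s 1 * A t 1) + γ * (U s 2 * A t 2)).det =
      α * β * γ * U.det * A.det := by
  simp only [Matrix.det_fin_three, Matrix.of_apply]
  ring

theorem rank3 {α α' β β' c : ℂ} (hα : α ≠ 0) (hα' : α' ≠ 0) (hc : c ≠ 0) {u a v b : Fin 3 → ℂ}
    (hu : Function.Injective u) (ha : Function.Injective a) (u0 : ∀ s, u s ≠ 0)
    (a0 : ∀ t, a t ≠ 0)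
    (h : ∀ s t, α * (u s * a t) + α' * (u s * a t)⁻¹ - c = β * (v s * b t) + β' * (v s * b t)⁻¹) :
    False := by
  have h1 := ch_det α α' (-c) (Matrix.of fun s => ![u s, (u s)⁻¹, 1])
    (Matrix.of fun s => ![a s, (a s)⁻¹, 1])
  have h2 := ch_det β β' 0 (Matrix.of fun s => ![v s, (v s)⁻¹, 1])
    (Matrix.of fun s => ![b s, (b s)⁻¹, 1])
  refine mul_ne_zero (mul_ne_zero (mul_ne_zero (mul_ne_zero hα hα') (neg_ne_zero.2 hc))
    (ch_vdm hu u0)) (ch_vdm ha a0) (h1.symm.trans (Eq.trans ?_ (h2.trans (by ring))))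
  congr 2
  funext s t
  have := h s t
  simp only [mul_inv] at this
  simp
  linear_combination this

end Pool.Agent.Lib.MP_990519_co.EF
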