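import Pool.Agent.Lib.MP_990519_co.EF.Defs

/-! The configuration seen from one of its points. -/

open Finset Complex
open scoped ComplexConjugate Classical

namespace Pool.Agent.Lib.MP_990519_co.EF

variable {k : ℕ} {r : ℂ}

theorem ob_cos (hk : 2 ≤ k) : 0 ≤ Real.cos (Real.pi / k) := by
  have kR : (2 : ℝ) ≤ k := by exact_mod_cast hk
  have pi0 := Real.pi_pos
  refine Real.cos_nonneg_of_neg_pi_div_two_le_of_le ?_ (by gcongr)
  have : 0 ≤ Real.pi / k := by positivity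
  linarith

theorem ob_conj (hk : 0 < k) {z c : ℂ} (h : z ^ k = c) (hc : ‖c‖ = 1) : conj z = z⁻¹ :=
  (inv_eq_conj (norm_of_pow hk h hc)).symm

theorem ob_ne (hk : 0 < k) {z c : ℂ} (h : z ^ k = c) (hc : ‖c‖ = 1) : z ≠ 0 := by
  have := norm_of_pow hk h hc
  rintro rfl
  simp at this

theorem BB_one (hk : 0 < k) : BB k 1 = mu k := by
  simp [BB]

theorem ob_form (hk : 2 ≤ k) (hr : r = 1 ∨ Adm2 k r) :
    ∃ (ρ : ℝ) (w : ℂ), 0 < ρ ∧ (w ^ k = 1 ∨ w ^ k = -1) ∧ r = ρ * w := by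
  rcases hr with rfl | ⟨ρ, w, h1, -, h3, h4⟩
  · exact ⟨1, 1, one_pos, Or.inl (one_pow k), by simp⟩
  · exact ⟨ρ, w, (ob_cos hk).trans_lt h1, Or.inr h3, h4⟩

theorem BB_zero (hk : 2 ≤ k) (hr : r = 1 ∨ Adm2 k r) : (0 : ℂ) ∉ BB k r := by
  have kp : 0 < k := by omega
  obtain ⟨ρ, w, h1, h2, rfl⟩ := ob_form hk hr
  have w0 : w ≠ 0 := by rcases h2 with h | h <;> exact ob_ne kp h (by simp)
  rw [mem_BB kp]
  rintro (h | ⟨g, hg, h⟩)
  · exact ob_ne kp h norm_one rfl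
  · exact mul_ne_zero (mul_ne_zero (ofReal_ne_zero.2 h1.ne') w0) (ob_ne kp hg norm_one) h

theorem BB_disj (hk : 2 ≤ k) (hr : Adm2 k r) : Disjoint (mu k) ((mu k).image fun h => r * h) := by
  have kp : 0 < k := by omega
  obtain ⟨ρ, w, h1, -, h3, rfl⟩ := hr
  have h0 := (ob_cos hk).trans_lt h1
  refine disjoint_left.2 fun z hz h => ?_
  obtain ⟨g, hg, rfl⟩ := mem_image.1 h
  rw [mem_mu kp] at hz hg
  rw [mul_pow, mul_pow, h3, hg] at hz
  have : ρ ^ k * -1 * 1 = 1 := by exact_mod_cast hz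
  linarith [pow_pos h0 k]

theorem ob_r0 (hk : 2 ≤ k) (hr : r = 1 ∨ Adm2 k r) : r ≠ 0 := fun h =>
  BB_zero hk hr ((mem_BB (by omega)).2 (Or.inr ⟨1, one_pow k, by simp [h]⟩))

theorem card_BB (hk : 2 ≤ k) (hr : Adm2 k r) : #(BB k r) = 2 * k := by
  rw [BB, card_union_of_disjoint (BB_disj hk hr),
    card_image_of_injective _ (mul_right_injective₀ (ob_r0 hk (Or.inr hr))), card_mu (by omega)]
  ring

theorem BB_sigma (hk : 2 ≤ k) (hr : r = 1 ∨ Adm2 k r) {y z : ℂ} (hy : y ∈ BB k r)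
    (hz : z ∈ BB k r) : tt 0 y * conj z ∈ BB k r := by
  have kp : 0 < k := by omega
  obtain ⟨ρ, w, h1, h2, rfl⟩ := ob_form hk hr
  have w2 : (w ^ k) ^ 2 = 1 := by rcases h2 with h | h <;> simp [h]
  have wc : conj w = w⁻¹ := by rcases h2 with h | h <;> exact ob_conj kp h (by simp)
  have w0 : w ≠ 0 := by rcases h2 with h | h <;> exact ob_ne kp h (by simp)
  have r0 : (ρ : ℂ) ≠ 0 := ofReal_ne_zero.2 h1.ne'
  have ht : tt 0 y ^ k = 1 := by
    rcases (mem_BB kp).1 hy with h | ⟨g, hg, rfl⟩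
    · rw [tt, sub_zero, ob_conj kp h norm_one, div_pow, inv_pow, h]; simp
    · have : tt 0 (ρ * w * g) = w ^ 2 * g ^ 2 := by
        have := ob_ne kp hg norm_one
        rw [tt, sub_zero, map_mul, map_mul, conj_ofReal, wc, ob_conj kp hg norm_one]
        field_simp
      rw [this, mul_pow, ← pow_mul, ← pow_mul, mul_comm 2, pow_mul, pow_mul, w2, hg]; simp
  rw [mem_BB kp] at hz ⊢
  rcases hz with h | ⟨g, hg, rfl⟩
  · left
    rw [mul_pow, ht, ← map_pow, h]; simp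
  · refine Or.inr ⟨tt 0 y * (w ^ 2 * g)⁻¹, ?_, ?_⟩
    · rw [mul_pow, ht, inv_pow, mul_pow, ← pow_mul, mul_comm 2, pow_mul, w2, hg]; simp
    · have := ob_ne kp hg norm_one
      rw [map_mul, map_mul, conj_ofReal, wc, ob_conj kp hg norm_one]
      field_simp

/-- at most two points of a circle about `0` have a given distance from `y ≠ 0` -/
theorem two_on_circle {y : ℂ} (hy : y ≠ 0) (T : Finset ℂ) {R d : ℝ}
    (h : ∀ z ∈ T, ‖z‖ = R ∧ dist y z = d) : #T ≤ 2 := by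
  rcases T.eq_empty_or_nonempty with rfl | ⟨a, ha⟩
  · simp
  · refine (card_le_card (t := {a, tt 0 y * conj a}) fun b hb => ?_).trans card_le_two
    have := mirror (O := 0) (a := a) (b := b) hy (by simp [(h a ha).1, (h b hb).1])
      (by rw [(h a ha).2, (h b hb).2])
    simpa using this

theorem four (hk : 0 < k) (r : ℂ) {y : ℂ} (hy : y ≠ 0) (d : ℝ) :
    #{z ∈ BB k r | dist y z = d} ≤ 4 := by
  rw [BB, filter_union]
  refine (card_union_le _ _).trans (add_le_add (b := 2) (d := 2)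
    (two_on_circle hy _ (R := 1) (d := d) fun z hz => ?_)
    (two_on_circle hy _ (R := ‖r‖) (d := d) fun z hz => ?_))
  · obtain ⟨h1, h2⟩ := mem_filter.1 hz
    exact ⟨norm_of_pow hk ((mem_mu hk).1 h1) norm_one, h2⟩
  · obtain ⟨h1, h2⟩ := mem_filter.1 hz
    obtain ⟨g, hg, rfl⟩ := mem_image.1 h1
    exact ⟨by rw [norm_mul, norm_of_pow hk ((mem_mu hk).1 hg) norm_one, mul_one], h2⟩

/-- From `y` in the first polygon the ratio of the radii is `s = ρ`, from the second `s = ρ⁻¹`. -/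
theorem BB_view (hk : 3 ≤ k) (hr : Adm2 k r) {y : ℂ} (hy : y ∈ BB k r) :
    ∃ s : ℝ, Real.cos (Real.pi / k) < s ∧ s * Real.cos (Real.pi / k) < 1 ∧
      (y ∈ mu k → s = ‖r‖) ∧ (y ∉ mu k → s = ‖r‖⁻¹) ∧
      ∀ z ∈ BB k r, (∃ g : ℂ, g ^ k = 1 ∧ z = y * g) ∨ ∃ w : ℂ, w ^ k = -1 ∧ z = y * (s * w) := by
  have kp : 0 < k := by omega
  obtain ⟨ρ, w, h1, h2, h3, rfl⟩ := hr
  have h0 := (ob_cos (by omega)).trans_lt h1
  have r0 : (ρ : ℂ) ≠ 0 := ofReal_ne_zero.2 h0.ne'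
  have w0 := ob_ne kp h3 (by simp)
  have nr : ‖ρ * w‖ = ρ := by
    rw [norm_mul, norm_of_pow kp h3 (by simp), mul_one, norm_real, Real.norm_of_nonneg h0.le]
  by_cases hm : y ∈ mu k
  · have hy1 := (mem_mu kp).1 hm
    have y0 := ob_ne kp hy1 norm_one
    refine ⟨ρ, h1, h2, fun _ => nr.symm, fun h => absurd hm h, fun z hz => ?_⟩
    rcases (mem_BB kp).1 hz with h | ⟨g, hg, rfl⟩
    · exact Or.inl ⟨z / y, by rw [div_pow, h, hy1, div_one], by field_simp⟩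
    · exact Or.inr ⟨w * g / y, by rw [div_pow, mul_pow, h3, hg, hy1]; simp, by field_simp⟩
  · rcases (mem_BB kp).1 hy with h | ⟨u, hu, rfl⟩
    · exact absurd ((mem_mu kp).2 h) hm
    have u0 := ob_ne kp hu norm_one
    refine ⟨ρ⁻¹, ?_, ?_, fun h => absurd h hm, fun _ => by rw [nr], fun z hz => ?_⟩
    · rw [inv_eq_one_div, lt_div_iff₀ h0]; linarith
    · rw [inv_mul_lt_iff₀ h0]; linarith
    · rcases (mem_BB kp).1 hz with h | ⟨g, hg, rfl⟩
      · exact Or.inr ⟨z / (w * u), by rw [div_pow, mul_pow, h3, hu, h]; norm_num,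
          by push_cast; field_simp⟩
      · exact Or.inl ⟨g / u, by rw [div_pow, hg, hu, div_one], by field_simp⟩

end Pool.Agent.Lib.MP_990519_co.EF
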