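import Pool.Agent.Lib.MP_990519_co.EF.Cross
import Pool.Agent.Lib.MP_990519_co.EF.Orbit

/-! Distances in the exact configuration. -/

open Finset Complex
open scoped ComplexConjugate Classical

namespace Pool.Agent.Lib.MP_990519_co.EF

variable {k : ℕ} {r : ℂ}

/-- a class with more than two points -/
theorem ct_big (hk : 20 ≤ k) (hr : Adm2 k r) {y : ℂ} (hy : y ∈ BB k r) {d : ℝ}
    (h : 2 < #{z ∈ BB k r | dist y z = d}) : (∀ z ∈ BB k r, dist y z ≤ d) ∧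
      (y ∈ mu k → Even k ∧ 1 < ‖r‖ ∨ Odd k ∧ ‖r‖ < 1) ∧
      (y ∉ mu k → Even k ∧ 1 < ‖r‖⁻¹ ∨ Odd k ∧ ‖r‖⁻¹ < 1) := by
  have kp : 0 < k := by omega
  have y0 : y ≠ 0 := fun e => BB_zero (by omega) (Or.inr hr) (e ▸ hy)
  obtain ⟨s, s1, s2, s3, s4, s5⟩ := BB_view (by omega) hr hy
  have e1 : ∃ g : ℂ, g ^ k = 1 ∧ dist y (y * g) = d := by
    by_contra hh
    refine (two_on_circle y0 _ (R := ‖y‖ * ‖(s : ℂ)‖) (d := d) fun z hz => ?_).not_gt h
    obtain ⟨a, b⟩ := mem_filter.1 hz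
    rcases s5 z a with ⟨g, hg, rfl⟩ | ⟨w, hw, rfl⟩
    · exact absurd ⟨g, hg, b⟩ hh
    · exact ⟨by rw [norm_mul, norm_mul, norm_of_pow kp hw (by simp), mul_one], b⟩
  have e2 : ∃ w : ℂ, w ^ k = -1 ∧ dist y (y * (s * w)) = d := by
    by_contra hh
    refine (two_on_circle y0 _ (R := ‖y‖) (d := d) fun z hz => ?_).not_gt h
    obtain ⟨a, b⟩ := mem_filter.1 hz
    rcases s5 z a with ⟨g, hg, rfl⟩ | ⟨w, hw, rfl⟩
    · exact ⟨by rw [norm_mul, norm_of_pow kp hg norm_one, mul_one], b⟩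
    · exact absurd ⟨w, hw, b⟩ hh
  obtain ⟨g, hg, rfl⟩ := e1
  obtain ⟨w, hw, e⟩ := e2
  obtain ⟨a1, a2, a3⟩ := apex hk y0 hg hw s1 s2 e.symm
  refine ⟨fun z hz => ?_, fun h => s3 h ▸ a1, fun h => s4 h ▸ a1⟩
  rcases s5 z hz with ⟨g, hg, rfl⟩ | ⟨w, hw, rfl⟩
  exacts [a2 g hg, a3 w hw]

theorem ct_one (hk : 20 ≤ k) {y : ℂ} (hy : y ∈ BB k 1) (d : ℝ) :
    #{z ∈ BB k 1 | dist y z = d} ≤ 2 := by
  have kp : 0 < k := by omega
  have y0 : y ≠ 0 := fun e => BB_zero (k := k) (by omega) (Or.inl rfl) (e ▸ hy)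
  refine two_on_circle y0 _ (R := 1) (d := d) fun z hz => ?_
  obtain ⟨a, b⟩ := mem_filter.1 hz
  rw [BB_one kp, mem_mu kp] at a
  exact ⟨norm_of_pow kp a norm_one, b⟩

theorem condI_BB (hk : 20 ≤ k) (hr : r = 1 ∨ Adm2 k r) : CondI (BB k r) := by
  intro x hx a ha b hb c hc h1 h2 h3 h4 h5
  have : 2 < #{z ∈ BB k r | dist x z = dist x a} := two_lt_card_iff.2 ⟨a, b, c,
    mem_filter.2 ⟨ha, rfl⟩, mem_filter.2 ⟨hb, h4.symm⟩, mem_filter.2 ⟨hc, h5.symm⟩, h1, h2, h3⟩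
  rcases hr with rfl | hr
  · exact absurd (ct_one hk hx _) this.not_ge
  · exact (ct_big hk hr hx this).1

theorem ct_two {B : Finset ℂ} {y : ℂ} (hy : y ∈ B) (h : ∀ d, #{z ∈ B | dist y z = d} ≤ 2) :
    #B - 1 ≤ 2 * tc B y := by
  rw [← card_erase_of_mem hy]
  exact card_le_mul_card_image _ 2 fun d _ =>
    (card_le_card (filter_subset_filter _ (erase_subset _ _))).trans (h d)

theorem ct_all (hk : 20 ≤ k) (hr : Adm2 k r) {y : ℂ} (hy : y ∈ BB k r) :
    k ≤ tc (BB k r) y + 1 := by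
  have cB := card_BB (by omega) hr
  by_cases h : ∀ d, #{z ∈ BB k r | dist y z = d} ≤ 2
  · have := ct_two hy h
    omega
  push Not at h
  obtain ⟨d, hd⟩ := h
  have y0 : y ≠ 0 := fun e => BB_zero (by omega) (Or.inr hr) (e ▸ hy)
  have a1 := (ct_big hk hr hy hd).1
  have a2 := four (by omega : 0 < k) r y0 d
  obtain ⟨z, hz, zy⟩ := exists_mem_ne (by omega : 1 < #{z ∈ BB k r | dist y z = d}) y
  obtain ⟨z1, z2⟩ := mem_filter.1 hz
  have dm : d ∈ ((BB k r).erase y).image (dist y) := mem_image.2 ⟨z, mem_erase.2 ⟨zy, z1⟩, z2⟩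
  have a3 : #{x ∈ (BB k r).erase y | ¬ dist y x = d} ≤
      2 * #((((BB k r).erase y).image (dist y)).erase d) := by
    refine card_le_mul_card_image_of_maps_to (f := dist y) (fun x hx => mem_erase.2
      ⟨(mem_filter.1 hx).2, mem_image_of_mem _ (mem_filter.1 hx).1⟩) 2 fun e he => ?_
    refine (card_le_card (filter_subset_filter _ ((filter_subset _ _).trans
      (erase_subset _ _)))).trans (not_lt.1 fun hh => (mem_erase.1 he).1 ?_)
    obtain ⟨x, hx, rfl⟩ := mem_image.1 (mem_erase.1 he).2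
    exact le_antisymm (a1 x (mem_erase.1 hx).2) (z2 ▸ (ct_big hk hr hy hh).1 z z1)
  have a4 := card_filter_add_card_filter_not (s := (BB k r).erase y) fun x => dist y x = d
  have a5 : #{x ∈ (BB k r).erase y | dist y x = d} ≤ #{z ∈ BB k r | dist y z = d} :=
    card_le_card (filter_subset_filter _ (erase_subset _ _))
  have a6 := card_pos.2 ⟨d, dm⟩
  rw [card_erase_of_mem dm] at a3
  rw [card_erase_of_mem hy] at a4
  unfold tc
  omega

theorem ct_good (hk : 20 ≤ k) (hr : Adm2 k r) :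
    ∃ P ⊆ BB k r, #P = k ∧ ∀ y ∈ P, k ≤ tc (BB k r) y := by
  have cB := card_BB (by omega) hr
  have two : ∀ y ∈ BB k r, (∀ d, ¬ 2 < #{z ∈ BB k r | dist y z = d}) → k ≤ tc (BB k r) y :=
    fun y hy h => by
      have := ct_two hy fun d => not_lt.1 (h d)
      omega
  have sub : mu k ⊆ BB k r := subset_union_left
  by_cases h : Even k ∧ 1 < ‖r‖ ∨ Odd k ∧ ‖r‖ < 1
  · refine ⟨BB k r \ mu k, sdiff_subset, ?_, fun y hy => two y (mem_sdiff.1 hy).1 fun d hd => ?_⟩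
    · rw [card_sdiff_of_subset sub, card_mu (by omega)]; omega
    · have np : 0 < ‖r‖ := norm_pos_iff.2 (ob_r0 (by omega) (Or.inr hr))
      have := (ct_big hk hr (mem_sdiff.1 hy).1 hd).2.2 (mem_sdiff.1 hy).2
      rw [one_lt_inv₀ np, inv_lt_one₀ np] at this
      rw [← Nat.not_even_iff_odd] at h this
      rcases h with h | h <;> rcases this with a | a
      exacts [h.2.asymm a.2, a.1 h.1, h.1 a.1, h.2.asymm a.2]
  · exact ⟨mu k, sub, card_mu (by omega), fun y hy =>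
      two y (sub hy) fun d hd => h ((ct_big hk hr (sub hy) hd).2.1 hy)⟩

theorem sum_BB (hk : 20 ≤ k) (hr : r = 1 ∨ Adm2 k r) (S : Finset ℂ) :
    #(BB k r ∩ S) * (#(BB k r) - 1) ≤
      2 * ∑ y ∈ BB k r ∩ S, tc (BB k r) y + #(BB k r \ S) := by
  rcases hr with rfl | hr
  · rw [mul_sum]
    exact (card_nsmul_le_sum _ _ _ fun y hy =>
      ct_two (mem_inter.1 hy).1 (ct_one hk (mem_inter.1 hy).1)).trans (Nat.le_add_right _ _)
  obtain ⟨P, p1, p2, p3⟩ := ct_good hk hr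
  have sb : P ∩ S ⊆ BB k r ∩ S := inter_subset_inter_right p1
  have a1 := card_nsmul_le_sum (P ∩ S) (fun y => tc (BB k r) y) k fun y hy => p3 y (mem_inter.1 hy).1
  have a2 := card_nsmul_le_sum ((BB k r ∩ S) \ (P ∩ S)) (fun y => tc (BB k r) y + 1) k fun y hy =>
    ct_all hk hr (mem_inter.1 (mem_sdiff.1 hy).1).1
  rw [sum_add_distrib, sum_const] at a2
  simp only [smul_eq_mul, mul_one] at a1 a2
  have a3 := card_sdiff_add_card_eq_card sb
  have a4 := card_sdiff_add_card_inter P S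
  have a5 : #(P \ S) ≤ #(BB k r \ S) := card_le_card (sdiff_subset_sdiff p1 Subset.rfl)
  have a6 : #((BB k r ∩ S) \ (P ∩ S)) ≤ #(BB k r \ P) := card_le_card fun z => by
    simp only [mem_sdiff, mem_inter]; tauto
  have cB := card_BB (by omega) hr
  rw [card_sdiff_of_subset p1] at a6
  rw [← sum_sdiff sb, ← a3, cB, Nat.mul_sub_one, add_mul, mul_left_comm, mul_left_comm #(P ∩ S)]
  omega

end Pool.Agent.Lib.MP_990519_co.EF
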