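import Pool.Agent.Lib.MP_990519_co.EF.Fine

/-! Almost every point lies on an almost complete regular polygon. -/

open Finset Complex
open scoped ComplexConjugate Classical

namespace Pool.Agent.Lib.MP_990519_co.EF

theorem cover (S : Finset ℂ) (hn : 2000 ≤ #S) (hS : CI S) (cen : ℂ → ℂ)
    (h : (#{q ∈ S ×ˢ S | ¬ Paired S cen q.1 q.2} : ℝ) ≤ 1 / 10 ^ 28 * (#S : ℝ) ^ 2) :
    ∃ (S0 : Finset ℂ) (kk : ℂ × ℝ → ℕ), S0 ⊆ S ∧ 500 * #(S \ S0) ≤ #S ∧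
      ∀ a ∈ S0, ∃ G, Full S (cen a) (a - cen a) (kk (cen a, ‖a - cen a‖)) G := by
  set cl : ℂ → ℂ × ℝ := fun x => (cen x, ‖x - cen x‖) with hcl
  set A : ℂ × ℝ → Finset ℂ := fun c => {x ∈ S | cl x = c} with hA
  set u : ℂ × ℝ → ℕ := fun c => #{q ∈ S ×ˢ S | ¬ Paired S cen q.1 q.2 ∧ cl q.2 = c} with hu
  have nR : (2000 : ℝ) ≤ #S := by exact_mod_cast hn
  have key : ∀ c : ℂ × ℝ, ∃ (k : ℕ) (G A0 : Finset ℂ), A0 ⊆ A c ∧ (∀ a ∈ A0, Full S c.1 (a - c.1) k G) ∧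
      (1000 * #(A c \ A0) : ℝ) ≤ #(A c) + 10 ^ 17 * u c / #S := by
    intro c
    have p0 : (0 : ℝ) ≤ 10 ^ 17 * u c / #S := by positivity
    rcases (A c).eq_empty_or_nonempty with e | ne
    · exact ⟨0, ∅, ∅, empty_subset _, by simp, by simp [e, p0]⟩
    by_cases hf : (u c : ℝ) ≤ 1 / 10 ^ 14 * #S * #(A c)
    · obtain ⟨k, G, A0, h1, h2, h3⟩ := fine_class hn hS (filter_subset _ _ : A c ⊆ S) ne
        (O := c.1) (R := c.2) (fun a ha => by rw [← (mem_filter.1 ha).2])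
        (le_trans (Nat.cast_le.2 (card_le_card fun q hq => by
          obtain ⟨a1, a2⟩ := mem_filter.1 hq
          obtain ⟨a3, a4⟩ := mem_product.1 a1
          obtain ⟨a5, a6⟩ := mem_filter.1 a4
          refine mem_filter.2 ⟨mem_product.2 ⟨a3, a5⟩, fun ⟨x, x1, x2, x3, x4, x5⟩ =>
            a2 ⟨x, mem_filter.2 ⟨x1, ?_⟩, x2, x5⟩, a6⟩
          rw [← a6]
          simp only [hcl, x3, x4])) hf)
      refine ⟨k, G, A0, h1, h3, ?_⟩
      have : (1000 * #(A c \ A0) : ℝ) ≤ #(A c) := by exact_mod_cast h2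
      linarith
    · refine ⟨0, ∅, ∅, empty_subset _, by simp, ?_⟩
      rw [sdiff_empty]
      have : (1000 * #(A c) : ℝ) ≤ 10 ^ 17 * u c / #S := by
        rw [le_div_iff₀ (by linarith)]; linarith [not_le.1 hf]
      linarith [(Nat.cast_nonneg _ : (0 : ℝ) ≤ #(A c))]
  choose kk G A0 h1 h2 h3 using key
  refine ⟨{x ∈ S | x ∈ A0 (cl x)}, kk, filter_subset _ _, ?_,
    fun a ha => ⟨G (cl a), h2 (cl a) a (mem_filter.1 ha).2⟩⟩
  have m1 : ∀ x ∈ S, cl x ∈ S.image cl := fun x hx => mem_image_of_mem _ hx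
  have e1 : #(S \ {x ∈ S | x ∈ A0 (cl x)}) = ∑ c ∈ S.image cl, #(A c \ A0 c) := by
    rw [card_eq_sum_card_fiberwise (f := cl) (t := S.image cl) fun x hx =>
      m1 x (mem_sdiff.1 (mem_coe.1 hx)).1]
    refine sum_congr rfl fun c _ => congrArg card (Finset.ext fun x => ?_)
    simp only [hA, mem_filter, mem_sdiff]
    constructor
    · rintro ⟨⟨a, b⟩, rfl⟩; exact ⟨⟨a, rfl⟩, fun e => b ⟨a, e⟩⟩
    · rintro ⟨⟨a, rfl⟩, b⟩; exact ⟨⟨a, fun e => b e.2⟩, rfl⟩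
  have e2 : #S = ∑ c ∈ S.image cl, #(A c) := card_eq_sum_card_fiberwise m1
  have e3 : #{q ∈ S ×ˢ S | ¬ Paired S cen q.1 q.2} = ∑ c ∈ S.image cl, u c := by
    rw [card_eq_sum_card_fiberwise (f := fun q : ℂ × ℂ => cl q.2) (t := S.image cl) fun q hq =>
      m1 _ (mem_product.1 (mem_filter.1 (mem_coe.1 hq)).1).2]
    simp only [hu, filter_filter]
  have e4 := sum_le_sum fun c (_ : c ∈ S.image cl) => h3 c
  rw [← mul_sum, sum_add_distrib, ← sum_div, ← mul_sum, ← Nat.cast_sum, ← Nat.cast_sum,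
    ← Nat.cast_sum, ← e1, ← e2, ← e3] at e4
  have e5 : (10 ^ 17 * #{q ∈ S ×ˢ S | ¬ Paired S cen q.1 q.2} / #S : ℝ) ≤ #S / 1000 := by
    rw [div_le_iff₀ (by linarith)]; nlinarith
  have : (500 * #(S \ {x ∈ S | x ∈ A0 (cl x)}) : ℝ) ≤ #S := by linarith
  exact_mod_cast this

end Pool.Agent.Lib.MP_990519_co.EF
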