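import Pool.Agent.Lib.MP_990519_co.EF.Root

/-! Equal distances to the two polygons. -/

open Finset Complex
open scoped ComplexConjugate Classical

namespace Pool.Agent.Lib.MP_990519_co.EF

theorem cr_anti {k u v : ℕ} (hk : 0 < k) (h : u ≤ v) (hv : v ≤ k) :
    Real.cos (v * (Real.pi / k)) ≤ Real.cos (u * (Real.pi / k)) := by
  have kR : (0 : ℝ) < k := by exact_mod_cast hk
  have pi0 := Real.pi_pos
  refine Real.cos_le_cos_of_nonneg_of_le_pi (by positivity) ?_ (by gcongr)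
  rw [← mul_div_assoc, div_le_iff₀ kR, mul_comm]
  gcongr

theorem cr_step {k w : ℕ} (h1 : 1 ≤ w) (h2 : w + 2 ≤ k) :
    (1 - Real.cos (Real.pi / k)) * (1 + 2 * Real.cos (Real.pi / k)) ≤
      Real.cos (w * (Real.pi / k)) - Real.cos ((w + 1 : ℕ) * (Real.pi / k)) := by
  have kR : (0 : ℝ) < k := by exact_mod_cast (by omega : 0 < k)
  have pi0 := Real.pi_pos
  set θ := Real.pi / k with hθ
  have t0 : 0 < θ := by positivity
  have tk : k * θ = Real.pi := by rw [hθ]; field_simp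
  have w1 : (1 : ℝ) ≤ w := by exact_mod_cast h1
  have w2 : (w : ℝ) + 2 ≤ k := by exact_mod_cast h2
  have e1 : (1 - Real.cos θ) * (1 + 2 * Real.cos θ) = Real.cos θ - Real.cos (2 * θ) := by
    rw [Real.cos_two_mul]; ring
  rw [e1, Real.cos_sub_cos, Real.cos_sub_cos]
  push_cast
  rw [show (θ - 2 * θ) / 2 = -(θ / 2) by ring, show (w * θ - (w + 1) * θ) / 2 = -(θ / 2) by ring,
    Real.sin_neg]
  have s0 : 0 ≤ Real.sin (θ / 2) := Real.sin_nonneg_of_nonneg_of_le_pi (by linarith) (by nlinarith)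
  have s1 : Real.sin ((θ + 2 * θ) / 2) ≤ Real.sin ((w * θ + (w + 1) * θ) / 2) := by
    rw [← Real.cos_pi_div_two_sub, ← Real.cos_pi_div_two_sub,
      ← Real.cos_abs (Real.pi / 2 - (w * θ + (w + 1) * θ) / 2)]
    refine Real.cos_le_cos_of_nonneg_of_le_pi (abs_nonneg _) (by linarith) ?_
    rw [abs_le]
    constructor <;> nlinarith
  nlinarith

theorem cross_real {k u v : ℕ} (hk : 20 ≤ k) (hu : u ≤ k) (hv : v ≤ k) (hp : (u + v) % 2 = 1)
    {ρ : ℝ} (h1 : Real.cos (Real.pi / k) < ρ) (h2 : ρ * Real.cos (Real.pi / k) < 1)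
    (h : 2 + 2 * Real.cos (u * (Real.pi / k)) =
      1 + ρ ^ 2 + 2 * ρ * Real.cos (v * (Real.pi / k))) :
    (u = 0 ∧ v = 1 ∧ 1 < ρ) ∨ (u = 1 ∧ v = 0 ∧ ρ < 1) := by
  have kp : 0 < k := by omega
  have kR : (20 : ℝ) ≤ k := by exact_mod_cast hk
  have pi0 := Real.pi_pos
  have pi3 := Real.pi_lt_d2
  have t1 : Real.pi / k ≤ 1 / 5 := by rw [div_le_iff₀ (by linarith)]; linarith
  have t0 : 0 < Real.pi / k := by positivity
  have c0 : 19 / 20 ≤ Real.cos (Real.pi / k) := by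
    have := Real.one_sub_sq_div_two_le_cos (x := Real.pi / k)
    nlinarith
  have c1 : Real.cos (Real.pi / k) < 1 := by
    rw [← Real.cos_zero]
    exact Real.cos_lt_cos_of_nonneg_of_le_pi le_rfl (by linarith [Real.pi_gt_three]) t0
  have ek : Real.cos (k * (Real.pi / k)) = -1 := by
    rw [mul_div_cancel₀ _ (by linarith : (k : ℝ) ≠ 0), Real.cos_pi]
  have ek1 : ∀ j : ℕ, j + 1 = k → Real.cos (j * (Real.pi / k)) = -Real.cos (Real.pi / k) := by
    intro j hj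
    have : (j : ℝ) = k - 1 := by rw [← hj]; push_cast; ring
    rw [this, sub_mul, mul_div_cancel₀ _ (by linarith : (k : ℝ) ≠ 0), one_mul, Real.cos_pi_sub]
  have st : ∀ a b : ℕ, a < b → b ≤ k → 2 ≤ b → a + 2 ≤ k →
      (1 - Real.cos (Real.pi / k)) * (1 + 2 * Real.cos (Real.pi / k)) ≤
        Real.cos (a * (Real.pi / k)) - Real.cos (b * (Real.pi / k)) := by
    intro a b h1 h2 h3 h4
    have a1 := cr_step (k := k) (w := max a 1) (by omega) (by omega)
    have a2 := cr_anti kp (show a ≤ max a 1 by omega) (by omega)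
    have a3 := cr_anti kp (show max a 1 + 1 ≤ b by omega) h2
    linarith
  set c := Real.cos (Real.pi / k) with hc
  have r1 : ρ < 20 / 19 := by nlinarith
  have r2 : |ρ - 1| ≤ 20 / 19 * (1 - c) := by
    rw [abs_le]; constructor <;> nlinarith
  have bd : |Real.cos (u * (Real.pi / k)) - Real.cos (v * (Real.pi / k))| ≤ 5 / 2 * (1 - c) := by
    have e : Real.cos (u * (Real.pi / k)) - Real.cos (v * (Real.pi / k)) =
        (ρ - 1) * ((ρ + 1) / 2 + Real.cos (v * (Real.pi / k))) := by linarith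
    have a1 : |(ρ + 1) / 2 + Real.cos (v * (Real.pi / k))| ≤ 9 / 4 := by
      have := Real.cos_le_one (v * (Real.pi / k))
      have := Real.neg_one_le_cos (v * (Real.pi / k))
      rw [abs_le]; constructor <;> linarith
    rw [e, abs_mul]
    nlinarith [mul_le_mul r2 a1 (abs_nonneg _) (by linarith)]
  rw [abs_le] at bd
  have big : 5 / 2 * (1 - c) < (1 - c) * (1 + 2 * c) := by nlinarith
  have cs : (u = 0 ∧ v = 1) ∨ (u = 1 ∧ v = 0) ∨ (u = k ∧ v + 1 = k) ∨ (v = k ∧ u + 1 = k) := by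
    by_contra hh
    rcases lt_or_gt_of_ne (show u ≠ v by omega) with a | a
    · linarith [st u v a hv (by omega) (by omega)]
    · linarith [st v u a hu (by omega) (by omega)]
  rcases cs with ⟨rfl, rfl⟩ | ⟨rfl, rfl⟩ | ⟨rfl, a⟩ | ⟨rfl, a⟩
  · simp only [Nat.cast_zero, zero_mul, Real.cos_zero, Nat.cast_one, one_mul] at h
    exact Or.inl ⟨rfl, rfl, by by_contra hh; nlinarith⟩
  · simp only [Nat.cast_zero, zero_mul, Real.cos_zero, Nat.cast_one, one_mul] at h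
    exact Or.inr ⟨rfl, rfl, by by_contra hh; nlinarith⟩
  · rw [ek, ek1 v a] at h
    nlinarith [sq_nonneg (ρ - c)]
  · rw [ek, ek1 u a] at h
    have := sq_le_sq' (abs_le.1 r2).1 (abs_le.1 r2).2
    nlinarith

theorem cr_dist (y : ℂ) (s : ℝ) {w : ℂ} (hw : ‖w‖ = 1) :
    dist y (y * (s * w)) ^ 2 = ‖y‖ ^ 2 * (1 + s ^ 2 + 2 * s * (-w).re) := by
  have h : w.re ^ 2 + w.im ^ 2 = 1 := by
    have := Complex.sq_norm w
    rw [hw, normSq_apply] at this; linarith
  rw [dist_eq_norm, show y - y * (s * w) = y * (1 - s * w) by ring, norm_mul, mul_pow,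
    Complex.sq_norm (1 - s * w), normSq_apply]
  congr 1
  simp
  linear_combination s ^ 2 * h

theorem apex {k : ℕ} (hk : 20 ≤ k) {y g w : ℂ} {s : ℝ} (hy : y ≠ 0) (hg : g ^ k = 1)
    (hw : w ^ k = -1) (h1 : Real.cos (Real.pi / k) < s) (h2 : s * Real.cos (Real.pi / k) < 1)
    (h : dist y (y * g) = dist y (y * (s * w))) :
    (Even k ∧ 1 < s ∨ Odd k ∧ s < 1) ∧
      (∀ g' : ℂ, g' ^ k = 1 → dist y (y * g') ≤ dist y (y * g)) ∧
      ∀ w' : ℂ, w' ^ k = -1 → dist y (y * (s * w')) ≤ dist y (y * g) := by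
  have kp : 0 < k := by omega
  have s0 : 0 ≤ s := by
    refine (Real.cos_nonneg_of_neg_pi_div_two_le_of_le ?_ ?_).trans h1.le
    · have : 0 ≤ Real.pi / k := by positivity
      linarith [Real.pi_pos]
    · have : (2 : ℝ) ≤ k := by exact_mod_cast (by omega : 2 ≤ k)
      gcongr
  have par : ∀ a b : ℕ, (-1 : ℂ) ^ a = (-1) ^ b → a % 2 = b % 2 := fun a b e => by
    rcases Nat.even_or_odd a with x | x <;> rcases Nat.even_or_odd b with z | z <;>
      rw [x.neg_one_pow, z.neg_one_pow] at e <;>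
      simp only [Nat.even_iff, Nat.odd_iff] at x z <;> first | omega | norm_num at e
  have A : ∀ g : ℂ, g ^ k = 1 → ∃ u : ℕ, u ≤ k ∧ u % 2 = k % 2 ∧
      dist y (y * g) ^ 2 = ‖y‖ ^ 2 * (2 + 2 * Real.cos (u * (Real.pi / k))) := fun g hg => by
    obtain ⟨u, a1, a2, a3⟩ := angle kp (w := -g) (by rw [pow_mul, neg_sq, ← pow_mul, mul_comm,
      pow_mul, hg, one_pow])
    refine ⟨u, a1, par _ _ (by rw [← a3, neg_pow, hg, mul_one]), ?_⟩
    have := cr_dist y 1 (norm_of_pow kp hg norm_one)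
    rw [ofReal_one, one_mul, a2] at this
    rw [this]; ring
  have B : ∀ w : ℂ, w ^ k = -1 → ∃ v : ℕ, v ≤ k ∧ v % 2 = (k + 1) % 2 ∧
      dist y (y * (s * w)) ^ 2 =
        ‖y‖ ^ 2 * (1 + s ^ 2 + 2 * s * Real.cos (v * (Real.pi / k))) := fun w hw => by
    obtain ⟨u, a1, a2, a3⟩ := angle kp (w := -w) (by rw [pow_mul, neg_sq, ← pow_mul, mul_comm,
      pow_mul, hw, neg_one_sq])
    refine ⟨u, a1, par _ _ (by rw [← a3, neg_pow, hw, pow_succ]), ?_⟩
    rw [cr_dist y s (norm_of_pow kp hw (by simp)), a2]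
  obtain ⟨u, a1, a2, a3⟩ := A g hg
  obtain ⟨v, b1, b2, b3⟩ := B w hw
  have y2 : 0 < ‖y‖ ^ 2 := by positivity
  have e := mul_left_cancel₀ y2.ne' (a3.symm.trans (h ▸ b3))
  have cr := cross_real hk a1 b1 (by omega) h1 h2 e
  refine ⟨?_, fun g' hg' => ?_, fun w' hw' => ?_⟩
  · rcases cr with ⟨c1, c2, c3⟩ | ⟨c1, c2, c3⟩
    · exact Or.inl ⟨Nat.even_iff.2 (by omega), c3⟩
    · exact Or.inr ⟨Nat.odd_iff.2 (by omega), c3⟩
  · obtain ⟨u', c1, c2, c3⟩ := A g' hg'
    refine (pow_le_pow_iff_left₀ dist_nonneg dist_nonneg two_ne_zero).1 ?_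
    rw [c3, a3]
    have := cr_anti kp (show u ≤ u' by omega) c1
    gcongr
  · obtain ⟨v', c1, c2, c3⟩ := B w' hw'
    refine (pow_le_pow_iff_left₀ dist_nonneg dist_nonneg two_ne_zero).1 ?_
    rw [c3, h, b3]
    have := cr_anti kp (show v ≤ v' by omega) c1
    gcongr

end Pool.Agent.Lib.MP_990519_co.EF
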