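import Pool.Agent.Lib.MP_990519_co.Order

/-! Definitions and basic facts for the last two steps (stability to exact structure). -/

open Finset Complex
open scoped ComplexConjugate Classical

namespace Pool.Agent.Lib.MP_990519_co.EF

/-- convex position -/
abbrev CI (S : Finset ℂ) : Prop := ConvexIndependent ℝ (fun p : (S : Set ℂ) => (p : ℂ))

/-- the leg `(y, x)` has a partner on the circle through `x` with centre `cen x` -/
def Paired (S : Finset ℂ) (cen : ℂ → ℂ) (y x : ℂ) : Prop :=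
  ∃ x' ∈ S, x' ≠ x ∧ cen x' = cen x ∧ ‖x' - cen x‖ = ‖x - cen x‖ ∧ dist y x = dist y x'

/-- three equal distances from a vertex are its largest distance -/
def CondI (S : Finset ℂ) : Prop :=
  ∀ x ∈ S, ∀ a ∈ S, ∀ b ∈ S, ∀ c ∈ S, a ≠ b → a ≠ c → b ≠ c →
    dist x a = dist x b → dist x a = dist x c → ∀ z ∈ S, dist x z ≤ dist x a

/-- number of distinct distances from `y` -/
noncomputable def tc (S : Finset ℂ) (y : ℂ) : ℕ := #((S.erase y).image (dist y))

/-- roots of unity -/
noncomputable def mu (k : ℕ) : Finset ℂ := Polynomial.nthRootsFinset k (1 : ℂ)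

/-- regular polygon -/
noncomputable def orb (O q : ℂ) (k : ℕ) : Finset ℂ := (mu k).image fun h => O + q * h

/-- one or two concentric regular polygons -/
noncomputable def BB (k : ℕ) (r : ℂ) : Finset ℂ := mu k ∪ (mu k).image fun h => r * h

/-- the second polygon is rotated by half a step and has an admissible size -/
def Adm2 (k : ℕ) (r : ℂ) : Prop :=
  ∃ (ρ : ℝ) (w : ℂ), Real.cos (Real.pi / k) < ρ ∧ ρ * Real.cos (Real.pi / k) < 1 ∧ w ^ k = -1 ∧
    r = ρ * w

/-- direction (squared) of `y` seen from `O` -/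
noncomputable def tt (O y : ℂ) : ℂ := (y - O) / conj (y - O)

/-- An almost complete regular polygon in `S`, seen symmetric from almost all points of `S`. -/
structure Full (S : Finset ℂ) (O q : ℂ) (k : ℕ) (G : Finset ℂ) : Prop where
  q0 : q ≠ 0
  kl : 49 * #S ≤ 100 * k
  miss : 1000 * #(orb O q k \ S) ≤ k
  sub : G ⊆ S
  cen : O ∉ G
  big : 1000 * #(S \ G) ≤ #S
  rot : ∀ y ∈ G, ∀ y' ∈ G, (tt O y / tt O y') ^ k = 1

theorem mem_mu {k : ℕ} (hk : 0 < k) {z : ℂ} : z ∈ mu k ↔ z ^ k = 1 :=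
  Polynomial.mem_nthRootsFinset hk 1

theorem card_mu {k : ℕ} (hk : 0 < k) : #(mu k) = k :=
  (Complex.isPrimitiveRoot_exp k hk.ne').card_nthRootsFinset

theorem norm_of_pow {k : ℕ} (hk : 0 < k) {z c : ℂ} (h : z ^ k = c) (hc : ‖c‖ = 1) : ‖z‖ = 1 := by
  have := congrArg norm h
  rw [norm_pow, hc] at this
  exact (pow_eq_one_iff_of_nonneg (norm_nonneg z) hk.ne').1 this

theorem mem_orb {O q : ℂ} {k : ℕ} (hk : 0 < k) {z : ℂ} :
    z ∈ orb O q k ↔ ∃ h : ℂ, h ^ k = 1 ∧ O + q * h = z := by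
  simp only [orb, mem_image, mem_mu hk]

theorem orb_inj (O : ℂ) {q : ℂ} (hq : q ≠ 0) : Function.Injective fun h : ℂ => O + q * h :=
  fun _ _ e => mul_left_cancel₀ hq (add_left_cancel e)

theorem card_orb (O : ℂ) {q : ℂ} (hq : q ≠ 0) {k : ℕ} (hk : 0 < k) : #(orb O q k) = k := by
  rw [orb, card_image_of_injective _ (orb_inj O hq), card_mu hk]

theorem mem_BB {k : ℕ} (hk : 0 < k) {r z : ℂ} :
    z ∈ BB k r ↔ z ^ k = 1 ∨ ∃ h : ℂ, h ^ k = 1 ∧ r * h = z := by
  simp only [BB, mem_union, mem_image, mem_mu hk]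

theorem norm_tt {O y : ℂ} (h : y ≠ O) : ‖tt O y‖ = 1 := by
  rw [tt, norm_div, Complex.norm_conj, div_self (norm_ne_zero_iff.2 (sub_ne_zero.2 h))]

/-- the number of `h` whose point (after a rotation by `g`) misses a set `T` -/
theorem card_miss (O : ℂ) {q : ℂ} (hq : q ≠ 0) {k : ℕ} (hk : 0 < k) {g : ℂ} (hg : g ^ k = 1)
    (T : Finset ℂ) : #{h ∈ mu k | O + q * (g * h) ∉ T} ≤ #(orb O q k \ T) := by
  have g0 : g ≠ 0 := by rintro rfl; simp [hk.ne'] at hg
  refine card_le_card_of_injOn (fun h => O + q * (g * h)) (fun h hh => ?_) fun a _ b _ e => ?_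
  · simp only [coe_filter, mem_mu hk, Set.mem_ofPred_eq] at hh
    simp only [coe_sdiff, Set.mem_sdiff, mem_coe, mem_orb hk]
    exact ⟨⟨g * h, by rw [mul_pow, hg, hh.1, one_mul], rfl⟩, hh.2⟩
  · exact mul_left_cancel₀ g0 (orb_inj O hq e)

theorem Full.kpos {S G : Finset ℂ} {O q : ℂ} {k : ℕ} (h : Full S O q k G) (hn : 0 < #S) : 0 < k := by
  have := h.kl; omega

theorem Full.ku {S G : Finset ℂ} {O q : ℂ} {k : ℕ} (h : Full S O q k G) (hn : 0 < #S) :
    999 * k ≤ 1000 * #(orb O q k ∩ S) := by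
  have h1 := card_sdiff_add_card_inter (orb O q k) S
  rw [card_orb O h.q0 (h.kpos hn)] at h1
  have := h.miss; omega

/-- Two points on a circle about `O` at the same distance from `y ≠ O` are equal or mirror
images. -/
theorem mirror {O y a b : ℂ} (hy : y ≠ O) (h1 : ‖b - O‖ = ‖a - O‖) (h2 : dist y a = dist y b) :
    b = a ∨ b - O = tt O y * conj (a - O) := by
  have y0 : conj (y - O) ≠ 0 := (map_ne_zero _).2 (sub_ne_zero.2 hy)
  have e1 : (b - O) * conj (b - O) = (a - O) * conj (a - O) := by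
    rw [Complex.mul_conj', Complex.mul_conj', h1]
  have e2 : (y - a) * conj (y - a) = (y - b) * conj (y - b) := by
    rw [Complex.mul_conj', Complex.mul_conj', ← dist_eq_norm, ← dist_eq_norm, h2]
  simp only [map_sub] at e1 e2 y0
  by_cases hb : b = a
  · exact Or.inl hb
  · right
    rw [tt, div_mul_eq_mul_div, eq_div_iff (by simpa using y0)]
    simp only [map_sub]
    have hb' : b - a ≠ 0 := sub_ne_zero.2 hb
    by_cases h0 : b - O = 0
    · have : a - O = 0 := by rw [h0, norm_zero] at h1; exact norm_eq_zero.1 h1.symm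
      exact absurd (by linear_combination h0 - this) hb'
    · apply mul_left_cancel₀ hb'
      linear_combination (b - O) * e2 + ((b - O) - (y - O)) * e1

/-- the mirror image has the same distance -/
theorem dist_mirror {y : ℂ} (hy : y ≠ 0) (a : ℂ) : dist y (tt 0 y * conj a) = dist y a := by
  have y0 : conj y ≠ 0 := by simpa using hy
  have : y - tt 0 y * conj a = tt 0 y * conj (y - a) := by
    simp only [tt, sub_zero, map_sub]; field_simp
  rw [dist_eq_norm, dist_eq_norm, this, norm_mul, norm_tt hy, Complex.norm_conj, one_mul]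

theorem card_le_two_of_line {S T : Finset ℂ} (hS : CI S) (hT : T ⊆ S)
    (h : ∀ a ∈ T, ∀ b ∈ T, ∀ c ∈ T, ori a b c = 0) : #T ≤ 2 := by
  by_contra hc
  obtain ⟨a, b, c, ha, hb, hc, h1, h2, h3⟩ := two_lt_card_iff.1 (not_le.1 hc)
  exact ori_ne hS (hT ha) (hT hb) (hT hc) h1.symm h2.symm h3 (h a ha b hb c hc)

/-- at most two vertices on a line through `O` -/
theorem line2 {S : Finset ℂ} (hS : CI S) (O t : ℂ) : #{y ∈ S | y ≠ O ∧ tt O y = t} ≤ 2 := by
  refine card_le_two_of_line hS (filter_subset _ _) fun a ha b hb c hc => ?_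
  have key : ∀ y ∈ ({y ∈ S | y ≠ O ∧ tt O y = t} : Finset ℂ), y - O = t * conj (y - O) := by
    intro y hy
    obtain ⟨-, h1, h2⟩ := mem_filter.1 hy
    have y0 : conj (y - O) ≠ 0 := (map_ne_zero _).2 (sub_ne_zero.2 h1)
    rw [← h2, tt, div_mul_cancel₀ _ y0]
  have h1 := key a ha
  have h2 := key b hb
  have h3 := key c hc
  have e : (c - a) * conj (b - a) = (b - a) * conj (c - a) := by
    simp only [map_sub] at h1 h2 h3 ⊢
    linear_combination (conj b - conj a) * (h3 - h1) - (conj c - conj a) * (h2 - h1)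
  have := congrArg Complex.im e
  simp only [mul_im, sub_re, sub_im, map_sub, conj_re, conj_im] at this
  unfold ori
  linarith

/-- a pair of points has at most two apexes -/
theorem apex2 {S : Finset ℂ} (hS : CI S) {x x' : ℂ} (h : x ≠ x') :
    #{y ∈ S | dist y x = dist y x'} ≤ 2 := by
  refine card_le_two_of_line hS (filter_subset _ _) fun a ha b hb c hc => ?_
  have key : ∀ y ∈ ({y ∈ S | dist y x = dist y x'} : Finset ℂ),
      (y.re - x.re) ^ 2 + (y.im - x.im) ^ 2 = (y.re - x'.re) ^ 2 + (y.im - x'.im) ^ 2 := by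
    intro y hy
    have := (mem_filter.1 hy).2
    rw [Complex.dist_eq_re_im, Complex.dist_eq_re_im] at this
    exact (Real.sqrt_inj (by positivity) (by positivity)).1 this
  have h1 := key a ha
  have h2 := key b hb
  have h3 := key c hc
  have hu : x.re - x'.re ≠ 0 ∨ x.im - x'.im ≠ 0 := by
    by_contra hh
    push Not at hh
    exact h (Complex.ext (by linarith [hh.1]) (by linarith [hh.2]))
  unfold ori
  rcases hu with hu | hu <;> apply mul_left_cancel₀ hu
  · linear_combination (-(c.im - a.im) / 2) * (h2 - h1) + ((b.im - a.im) / 2) * (h3 - h1)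
  · linear_combination ((c.re - a.re) / 2) * (h2 - h1) - ((b.re - a.re) / 2) * (h3 - h1)

end Pool.Agent.Lib.MP_990519_co.EF
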