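import Pool.Agent.Lib.MP_990519_co.EF.Root

/-! Two different centres: the first lies on the second circle. -/

open Finset Complex
open scoped ComplexConjugate Classical

namespace Pool.Agent.Lib.MP_990519_co.EF

theorem rd_quad {a b c x y z : ℂ} (h1 : x ≠ y) (h2 : x ≠ z) (h3 : y ≠ z)
    (e1 : a * x ^ 2 + b * x + c = 0) (e2 : a * y ^ 2 + b * y + c = 0)
    (e3 : a * z ^ 2 + b * z + c = 0) : b = 0 ∧ c = 0 := by
  have f1 : a * (x + y) + b = 0 :=
    mul_left_cancel₀ (sub_ne_zero.2 h1) (by linear_combination e1 - e2)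
  have f2 : a * (x + z) + b = 0 :=
    mul_left_cancel₀ (sub_ne_zero.2 h2) (by linear_combination e1 - e3)
  have a0 : a = 0 := mul_left_cancel₀ (sub_ne_zero.2 h3) (by linear_combination f1 - f2)
  have b0 : b = 0 := by rw [a0] at f1; linear_combination f1
  exact ⟨b0, by rw [a0, b0] at e1; linear_combination e1⟩

theorem rd_near {z z' : ℂ} {η : ℝ} (hz : z ≠ 0) (h : ‖z' - z‖ ≤ η * ‖z‖) (hη : η ≤ 1 / 2) :
    ‖z' / conj z' / (z / conj z) - 1‖ ≤ 4 * η := by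
  have np : 0 < ‖z‖ := norm_pos_iff.2 hz
  have h1 : ‖z‖ / 2 ≤ ‖z'‖ := by
    have := norm_sub_norm_le z z'
    rw [norm_sub_rev] at this
    nlinarith
  have np' : 0 < ‖z'‖ := by linarith
  have hz' : z' ≠ 0 := norm_pos_iff.1 np'
  have c0 : conj z ≠ 0 := (map_ne_zero _).2 hz
  have c1 : conj z' ≠ 0 := (map_ne_zero _).2 hz'
  have e : z' / conj z' / (z / conj z) - 1 =
      ((z' - z) * conj z - z * conj (z' - z)) / (conj z' * z) := by
    rw [map_sub]; field_simp; ring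
  have h0 : 0 ≤ η := by
    by_contra hh
    nlinarith [norm_nonneg (z' - z)]
  rw [e, norm_div, norm_mul, Complex.norm_conj, div_le_iff₀ (by positivity)]
  refine (norm_sub_le _ _).trans ?_
  rw [norm_mul, norm_mul, Complex.norm_conj, Complex.norm_conj]
  have := mul_le_mul_of_nonneg_left h1 (by positivity : 0 ≤ 4 * η * ‖z‖)
  nlinarith

theorem rd_miss {S G1 G2 : Finset ℂ} {O1 O2 q1 q2 : ℂ} {k1 k2 : ℕ} (h1 : Full S O1 q1 k1 G1)
    (h2 : Full S O2 q2 k2 G2) (hn : 0 < #S) {g : ℂ} (hg : g ^ k2 = 1) :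
    250 * #{h ∈ mu k2 | O2 + q2 * (g * h) ∉ G1} ≤ k2 := by
  have a1 := card_miss O2 h2.q0 (h2.kpos hn) hg G1
  have a2 : #(orb O2 q2 k2 \ G1) ≤ #(orb O2 q2 k2 \ S) + #(S \ G1) :=
    (card_le_card fun z => by simp only [mem_union, mem_sdiff]; tauto).trans (card_union_le _ _)
  have := h1.big
  have := h2.kl
  have := h2.miss
  omega

theorem rd_far {k : ℕ} (hk : 100 ≤ k) (d : ℂ) {q : ℂ} (hq : q ≠ 0) :
    2 * #{h ∈ mu k | ‖d + q * h‖ < ‖q‖ / 2} ≤ k := by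
  have kp : 0 < k := by omega
  obtain ⟨w, hw⟩ : ({h ∈ mu k | ‖h - -1‖ ≤ 1 / 4} : Finset ℂ).Nonempty := by
    have := arc hk (c := -1) (by simp)
    exact card_pos.1 (by omega)
  obtain ⟨w1, w2⟩ := mem_filter.1 hw
  rw [mem_mu kp] at w1
  have w0 : w ≠ 0 := by rintro rfl; simp [kp.ne'] at w1
  have w3 : 1 ≤ ‖1 - w‖ := by
    have := norm_sub_norm_le (2 : ℂ) (w - -1)
    rw [show (2 : ℂ) - (w - -1) = 1 - w by ring] at this
    have e : ‖(2 : ℂ)‖ = 2 := by simp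
    linarith
  set B := ({h ∈ mu k | ‖d + q * h‖ < ‖q‖ / 2} : Finset ℂ) with hB
  have dj : Disjoint B (B.image fun h => w * h) := disjoint_left.2 fun z hz hh => by
    obtain ⟨h, hb, rfl⟩ := mem_image.1 hh
    obtain ⟨a1, a2⟩ := mem_filter.1 hb
    have a3 := (mem_filter.1 hz).2
    have := norm_sub_le (d + q * h) (d + q * (w * h))
    rw [show d + q * h - (d + q * (w * h)) = q * h * (1 - w) by ring, norm_mul, norm_mul,
      norm_of_pow kp ((mem_mu kp).1 a1) norm_one] at this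
    nlinarith [norm_nonneg q]
  have sb : B ∪ B.image (fun h => w * h) ⊆ mu k := union_subset (filter_subset _ _) fun z hz => by
    obtain ⟨h, hh, rfl⟩ := mem_image.1 hz
    rw [mem_mu kp, mul_pow, w1, (mem_mu kp).1 (mem_filter.1 hh).1, one_mul]
  have := card_le_card sb
  rw [card_union_of_disjoint dj, card_image_of_injective _ (mul_right_injective₀ w0),
    card_mu kp] at this
  omega

theorem radius {S G1 G2 : Finset ℂ} {O1 O2 q1 q2 : ℂ} {k1 k2 : ℕ} (h1 : Full S O1 q1 k1 G1)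
    (h2 : Full S O2 q2 k2 G2) (hn : 2000 ≤ #S) (hO : O1 ≠ O2) : ‖O2 - O1‖ = ‖q2‖ := by
  have l1 := h1.kl
  have l2 := h2.kl
  have u1 := h1.ku (by omega)
  have c1 : #(orb O1 q1 k1 ∩ S) ≤ #S := card_le_card inter_subset_right
  have kp1 : 0 < k1 := by omega
  have kp : 0 < k2 := by omega
  have q0 := h2.q0
  have np : 0 < ‖q2‖ := norm_pos_iff.2 q0
  obtain ⟨ζ, z1, z2, z3⟩ := zeta (by omega : 2 ≤ k2)
  set d := O2 - O1 with hd
  have d0 : d ≠ 0 := sub_ne_zero.2 hO.symm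
  set X := ({h ∈ mu k2 | O2 + q2 * (1 * h) ∈ G1 ∧ O2 + q2 * (ζ * h) ∈ G1 ∧
    ¬ ‖d + q2 * h‖ < ‖q2‖ / 2} : Finset ℂ) with hX
  have cX : 101 * 2 < #X := by
    have a1 := rd_miss h1 h2 (by omega) (one_pow k2)
    have a2 := rd_miss h1 h2 (by omega) z1
    have a3 := rd_far (by omega : 100 ≤ k2) d q0
    have a4 : mu k2 ⊆ X ∪ ({h ∈ mu k2 | O2 + q2 * (1 * h) ∉ G1} ∪
        ({h ∈ mu k2 | O2 + q2 * (ζ * h) ∉ G1} ∪ {h ∈ mu k2 | ‖d + q2 * h‖ < ‖q2‖ / 2})) := by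
      intro h hh
      simp only [hX, mem_union, mem_filter]
      tauto
    have a5 := (card_le_card a4).trans ((card_union_le _ _).trans (add_le_add le_rfl
      ((card_union_le _ _).trans (add_le_add le_rfl (card_union_le _ _)))))
    rw [card_mu kp] at a5
    omega
  have kR : (980 : ℝ) ≤ k2 := by exact_mod_cast (by omega : 980 ≤ k2)
  have kR1 : (0 : ℝ) < k1 := by exact_mod_cast kp1
  have kR2 : (k1 : ℝ) ≤ 3 * k2 := by exact_mod_cast (by omega : k1 ≤ 3 * k2)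
  have pi3 := Real.pi_lt_d2
  have e1 : ∀ u : ℂ, O2 + q2 * u - O1 = d + q2 * u := fun u => by rw [hd]; ring
  have maps : ∀ h ∈ X, tt O1 (O2 + q2 * (ζ * h)) / tt O1 (O2 + q2 * (1 * h)) ∈
      ({l ∈ mu k1 | ‖l - 1‖ ≤ 200 / k1} : Finset ℂ) := by
    intro h hh
    obtain ⟨a1, a2, a3, a4⟩ := mem_filter.1 hh
    refine mem_filter.2 ⟨(mem_mu kp1).2 (h1.rot _ a3 _ a2), ?_⟩
    rw [not_lt] at a4
    rw [tt, tt, e1, e1, one_mul]
    refine (rd_near (η := 2 * (2 * Real.pi / k2)) (norm_pos_iff.1 (by linarith)) ?_ ?_).trans ?_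
    · rw [show d + q2 * (ζ * h) - (d + q2 * h) = q2 * h * (ζ - 1) by ring, norm_mul, norm_mul,
        norm_of_pow kp ((mem_mu kp).1 a1) norm_one]
      nlinarith [norm_nonneg (ζ - 1)]
    · rw [← mul_div_assoc, div_le_iff₀ (by linarith)]; linarith
    · rw [← mul_div_assoc, ← mul_div_assoc, div_le_div_iff₀ (by linarith) kR1]
      nlinarith [Real.pi_pos]
  obtain ⟨l, -, hl⟩ := exists_lt_card_fiber_of_mul_lt_card_of_maps_to maps
    ((Nat.mul_le_mul_right 2 (few kp1)).trans_lt cX)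
  have zc : conj ζ = ζ⁻¹ := (inv_eq_conj (norm_of_pow kp z1 norm_one)).symm
  have z0 : ζ ≠ 0 := by rintro rfl; simp [kp.ne'] at z1
  have key : ∀ h ∈ ({h ∈ X | tt O1 (O2 + q2 * (ζ * h)) / tt O1 (O2 + q2 * (1 * h)) = l} : Finset ℂ),
      (ζ * (ζ - l) * q2 * conj d) * h ^ 2 + (ζ * (d * conj d + ζ * (q2 * conj q2)) -
        l * (ζ * (d * conj d) + q2 * conj q2)) * h + (ζ - l) * d * conj q2 = 0 := by
    intro h hh
    obtain ⟨a0, e⟩ := mem_filter.1 hh
    obtain ⟨a1, a2, a3, -⟩ := mem_filter.1 a0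
    rw [mem_mu kp] at a1
    have hc : conj h = h⁻¹ := (inv_eq_conj (norm_of_pow kp a1 norm_one)).symm
    have h0 : h ≠ 0 := by rintro rfl; simp [kp.ne'] at a1
    have n1 : d + q2 * (1 * h) ≠ 0 := by
      rw [← e1]; exact sub_ne_zero.2 fun e => h1.cen (e ▸ a2)
    have n2 : d + q2 * (ζ * h) ≠ 0 := by
      rw [← e1]; exact sub_ne_zero.2 fun e => h1.cen (e ▸ a3)
    rw [tt, tt, e1, e1, div_div_div_eq, div_eq_iff
      (mul_ne_zero ((map_ne_zero _).2 n2) n1)] at e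
    simp only [map_add, map_mul, map_one, zc, hc] at e
    field_simp at e
    linear_combination e
  obtain ⟨x, y, z, hx, hy, hz, b1, b2, b3⟩ := two_lt_card_iff.1 hl
  obtain ⟨f1, f2⟩ := rd_quad b1 b2 b3 (key x hx) (key y hy) (key z hz)
  have : l = ζ := by
    have := (mul_eq_zero.1 f2).resolve_right ((map_ne_zero _).2 q0)
    exact (sub_eq_zero.1 ((mul_eq_zero.1 this).resolve_right d0)).symm
  subst this
  have f3 : d * conj d = q2 * conj q2 :=
    mul_left_cancel₀ (mul_ne_zero z0 (sub_ne_zero.2 z2)) (by linear_combination -f1)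
  rw [mul_conj', mul_conj'] at f3
  have f4 : ‖d‖ ^ 2 = ‖q2‖ ^ 2 := by exact_mod_cast f3
  exact (pow_left_inj₀ (norm_nonneg _) (norm_nonneg _) two_ne_zero).1 f4

end Pool.Agent.Lib.MP_990519_co.EF
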