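import Pool.Agent.Lib.MP_990519_co.EF.Supp
import Pool.Agent.Lib.MP_990519_co.EF.Radius

/-! Two almost complete regular polygons in convex position. -/

open Finset Complex
open scoped ComplexConjugate Classical

namespace Pool.Agent.Lib.MP_990519_co.EF

variable {S G1 G2 : Finset ℂ} {O O1 O2 q1 q2 : ℂ} {k k1 k2 : ℕ}

theorem centre_eq (hS : CI S) (hn : 2000 ≤ #S) (h1 : Full S O1 q1 k1 G1)
    (h2 : Full S O2 q2 k2 G2) : O1 = O2 := by
  by_contra hO
  have r2 := radius h1 h2 hn hO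
  have r1 := radius h2 h1 hn (Ne.symm hO)
  have q0 := h2.q0
  have np : 0 < ‖q2‖ := norm_pos_iff.2 q0
  rw [norm_sub_rev] at r2
  obtain ⟨g, -, a2, a3⟩ := h2.near hn (c := (O1 - O2) / q2) (by rw [norm_div, r2, div_self np.ne'])
  have := h1.deep hS hn a2
  rw [show O2 + q2 * g - O1 = q2 * (g - (O1 - O2) / q2) by field_simp; ring, norm_mul] at this
  nlinarith

theorem orb_disj (hk : 0 < k) (h : O + q2 ∉ orb O q1 k) :
    Disjoint (orb O q1 k) (orb O q2 k) := by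
  refine disjoint_left.2 fun z a b => h ?_
  obtain ⟨g, hg, rfl⟩ := (mem_orb hk).1 a
  obtain ⟨u, hu, e⟩ := (mem_orb hk).1 b
  have u0 : u ≠ 0 := by rintro rfl; simp [hk.ne'] at hu
  refine (mem_orb hk).2 ⟨g / u, by rw [div_pow, hg, hu, div_one], ?_⟩
  field_simp
  linear_combination -e

theorem pr_norm (hk : 0 < k) {z : ℂ} (h : z ∈ orb O q1 k) : ‖z - O‖ = ‖q1‖ := by
  obtain ⟨g, hg, rfl⟩ := (mem_orb hk).1 h
  rw [add_sub_cancel_left, norm_mul, norm_of_pow hk hg norm_one, mul_one]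

theorem order_eq (hS : CI S) (hn : 2000 ≤ #S) (h1 : Full S O q1 k1 G1) (h2 : Full S O q2 k2 G2)
    (hq : ‖q1‖ ≠ ‖q2‖) : k1 = k2 := by
  have l1 := h1.kl
  have l2 := h2.kl
  have u1 := h1.ku (by omega)
  have u2 := h2.ku (by omega)
  have b1 := h1.big
  have b2 := h2.big
  have kp1 : 0 < k1 := by omega
  have kp2 : 0 < k2 := by omega
  have dj : Disjoint (orb O q1 k1 ∩ S) (orb O q2 k2 ∩ S) := disjoint_left.2 fun z a b =>
    hq ((pr_norm kp1 (mem_inter.1 a).1).symm.trans (pr_norm kp2 (mem_inter.1 b).1))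
  have c1 : #(orb O q1 k1 ∩ S ∪ orb O q2 k2 ∩ S) ≤ #S :=
    card_le_card (union_subset inter_subset_right inter_subset_right)
  rw [card_union_of_disjoint dj] at c1
  have c2 : #S ≤ #(G1 ∩ G2) + (#(S \ G1) + #(S \ G2)) :=
    (card_le_card fun z => by simp only [mem_union, mem_sdiff, mem_inter]; tauto).trans
      ((card_union_le _ _).trans (add_le_add le_rfl (card_union_le _ _)))
  have c3 : #(G1 ∩ G2) ≤ 2 * #((G1 ∩ G2).image (tt O)) :=
    card_le_mul_card_image _ 2 fun t _ => (card_le_card fun y hy => by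
      obtain ⟨a, b⟩ := mem_filter.1 hy
      have a1 := (mem_inter.1 a).1
      exact mem_filter.2 ⟨h1.sub a1, fun e => h1.cen (e ▸ a1), b⟩).trans (line2 hS O t)
  obtain ⟨y0, hy0⟩ : (G1 ∩ G2).Nonempty := card_pos.1 (by omega)
  obtain ⟨a1, a2⟩ := mem_inter.1 hy0
  have t0 : tt O y0 ≠ 0 := norm_ne_zero_iff.1 (by
    rw [norm_tt (fun e : y0 = O => h1.cen (e ▸ a1))]; simp)
  have gp := Nat.gcd_pos_of_pos_left k2 kp1
  have c4 : #((G1 ∩ G2).image (tt O)) ≤ Nat.gcd k1 k2 := by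
    rw [← card_mu gp]
    refine card_le_card_of_injOn (fun t => t / tt O y0) (fun t ht => ?_)
      fun a _ b _ e => (div_left_inj' t0).1 e
    obtain ⟨y, hy, rfl⟩ := mem_image.1 (mem_coe.1 ht)
    obtain ⟨a3, a4⟩ := mem_inter.1 hy
    exact mem_coe.2 ((mem_mu gp).2 (pow_gcd_eq_one.2 ⟨h1.rot y a3 y0 a1, h2.rot y a4 y0 a2⟩))
  have key : ∀ m : ℕ, 0 < m → Nat.gcd k1 k2 ∣ m → m < 2 * Nat.gcd k1 k2 → m = Nat.gcd k1 k2 := by
    rintro m h0 ⟨c, hc⟩ h3
    have : c = 1 := by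
      have : 0 < c := by rcases c with _ | c <;> omega
      have : c < 2 := by nlinarith
      omega
    rw [hc, this, mul_one]
  rw [key k1 kp1 (Nat.gcd_dvd_left _ _) (by omega)]
  exact (key k2 kp2 (Nat.gcd_dvd_right _ _) (by omega)).symm

theorem pr_three (hn : 2000 ≤ #S) (h1 : Full S O q1 k G1) (h2 : Full S O q2 k G2) {a b : ℂ}
    (ha : a ^ k = 1) (hb : b ^ k = 1) :
    ∃ g : ℂ, g ^ k = 1 ∧ O + q2 * (1 * g) ∈ S ∧ O + q1 * (a * g) ∈ S ∧ O + q1 * (b * g) ∈ S := by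
  have l1 := h1.kl
  have kp : 0 < k := by omega
  have c1 := card_miss O h2.q0 kp (one_pow k) S
  have c2 := card_miss O h1.q0 kp ha S
  have c3 := card_miss O h1.q0 kp hb S
  have m1 := h1.miss
  have m2 := h2.miss
  by_contra hh
  have : mu k ⊆ {h ∈ mu k | O + q2 * (1 * h) ∉ S} ∪ ({h ∈ mu k | O + q1 * (a * h) ∉ S} ∪
      {h ∈ mu k | O + q1 * (b * h) ∉ S}) := fun g hg => by
    simp only [mem_union, mem_filter]
    have := not_exists.1 hh g
    have := (mem_mu kp).1 hg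
    tauto
  have := (card_le_card this).trans ((card_union_le _ _).trans
    (add_le_add le_rfl (card_union_le _ _)))
  rw [card_mu kp] at this
  omega

theorem pr_inner (hS : CI S) (hn : 2000 ≤ #S) (h1 : Full S O q1 k G1) (h2 : Full S O q2 k G2)
    {a b : ℂ} (ha : a ^ k = 1) (hb : b ^ k = 1) (hq : ‖q2‖ < ‖q1‖) {l : ℝ} (l0 : 0 ≤ l)
    (l1 : 2 * l ≤ 1) (e : q2 = l * (q1 * (a + b))) : False := by
  have kp := h1.kpos (by omega)
  obtain ⟨g, hg, a1, a2, a3⟩ := pr_three hn h1 h2 ha hb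
  have ne : ∀ c : ℂ, c ^ k = 1 → O + q1 * (c * g) ≠ O + q2 * (1 * g) := fun c hc e => by
    have := congrArg norm (add_left_cancel e)
    simp only [norm_mul, norm_of_pow kp hc norm_one, norm_of_pow kp hg norm_one, norm_one] at this
    linarith
  exact h1.no_inner hS hn a1 a2 a3 (ne a ha) (ne b hb) l0 l1 (by rw [e]; ring)

theorem pr_side (hS : CI S) (hn : 2000 ≤ #S) (h1 : Full S O q1 k G1) (h2 : Full S O q2 k G2)
    {ρ : ℝ} {w : ℂ} (r0 : 0 < ρ) (e : q2 = q1 * (ρ * w)) :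
    (w ^ k = 1 → 1 ≤ ρ) ∧ (w ^ k = -1 → Real.cos (Real.pi / k) < ρ) := by
  have l1 := h1.kl
  have kp : 0 < k := by omega
  have np : 0 < ‖q1‖ := norm_pos_iff.2 h1.q0
  have nq : ‖w‖ = 1 → ρ < 1 → ‖q2‖ < ‖q1‖ := fun a b => by
    rw [e, norm_mul, norm_mul, a, norm_real, Real.norm_of_nonneg r0.le]; nlinarith
  refine ⟨fun hw => not_lt.1 fun h => ?_, fun hw => not_le.1 fun h => ?_⟩
  · exact pr_inner hS hn h1 h2 hw hw (nq (norm_of_pow kp hw norm_one) h) (l := ρ / 2)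
      (by linarith) (by linarith) (by rw [e]; push_cast; ring)
  · obtain ⟨a, b, ha, hb, hab⟩ := half kp hw
    have cp := r0.trans_le h
    have kR : (1 : ℝ) ≤ k := by exact_mod_cast kp
    have c1 : Real.cos (Real.pi / k) < 1 := by
      rw [← Real.cos_zero]
      exact Real.cos_lt_cos_of_nonneg_of_le_pi le_rfl (div_le_self Real.pi_pos.le kR)
        (div_pos Real.pi_pos (by linarith))
    refine pr_inner hS hn h1 h2 ha hb (nq (norm_of_pow kp hw (by simp)) (by linarith))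
      (l := ρ / (2 * Real.cos (Real.pi / k))) (by positivity) ?_ ?_
    · rw [← mul_div_assoc, div_le_one (by positivity)]; linarith
    · have : ((2 * Real.cos (Real.pi / k) : ℝ) : ℂ) ≠ 0 := ofReal_ne_zero.2 (by positivity)
      rw [hab, e, ofReal_div]
      field_simp

theorem pair (hS : CI S) (hn : 2000 ≤ #S) (h1 : Full S O q1 k G1) (h2 : Full S O q2 k G2)
    (h : O + q2 ∉ orb O q1 k) : ∃ r : ℂ, Adm2 k r ∧ q2 = q1 * r := by
  have l1 := h1.kl
  have kp : 0 < k := by omega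
  have a1 := h1.q0
  have a2 := h2.q0
  set ρ := ‖q2 / q1‖ with hρ
  have r0 : 0 < ρ := norm_pos_iff.2 (div_ne_zero a2 a1)
  have rC : (ρ : ℂ) ≠ 0 := ofReal_ne_zero.2 r0.ne'
  set w := q2 / q1 / ρ with hw
  have nw : ‖w‖ = 1 := by
    rw [hw, norm_div, norm_real, Real.norm_of_nonneg r0.le, div_self r0.ne']
  have w0 : w ≠ 0 := norm_ne_zero_iff.1 (by rw [nw]; simp)
  have e : q2 = q1 * (ρ * w) := by rw [hw]; field_simp
  have e' : q1 = q2 * ((ρ⁻¹ : ℝ) * w⁻¹) := by rw [e]; push_cast; field_simp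
  have ex : ∀ {q : ℂ} {G : Finset ℂ}, Full S O q k G → ∃ g : ℂ, g ^ k = 1 ∧ O + q * (1 * g) ∈ G1 := by
    intro q G hq
    have := rd_miss h1 hq (by omega) (one_pow k)
    by_contra hh
    rw [filter_true_of_mem (p := fun h => O + q * (1 * h) ∉ G1)
      fun g hg a => hh ⟨g, (mem_mu kp).1 hg, a⟩, card_mu kp] at this
    omega
  obtain ⟨g1, b1, b2⟩ := ex h1
  obtain ⟨g2, b3, b4⟩ := ex h2
  have g10 : g1 ≠ 0 := by rintro rfl; simp [kp.ne'] at b1
  have g20 : g2 ≠ 0 := by rintro rfl; simp [kp.ne'] at b3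
  have w2 : (w ^ k) ^ 2 = 1 := by
    have := h1.rot _ b4 _ b2
    have c1 : conj q1 ≠ 0 := (map_ne_zero _).2 a1
    have e2 : tt O (O + q2 * (1 * g2)) / tt O (O + q1 * (1 * g1)) = w ^ 2 * (g2 / g1) ^ 2 := by
      rw [tt, tt, add_sub_cancel_left, add_sub_cancel_left, e]
      simp only [map_mul, map_one, conj_ofReal, ← inv_eq_conj nw,
        ← inv_eq_conj (norm_of_pow kp b1 norm_one), ← inv_eq_conj (norm_of_pow kp b3 norm_one)]
      field_simp
    rwa [e2, mul_pow, ← pow_mul, ← pow_mul, mul_comm 2, pow_mul, pow_mul, div_pow g2, b1, b3,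
      div_one, one_pow, mul_one] at this
  obtain ⟨s1, s2⟩ := pr_side hS hn h1 h2 r0 e
  obtain ⟨s3, s4⟩ := pr_side hS hn h2 h1 (inv_pos.2 r0) e'
  rcases (mul_self_eq_one_iff.1 (by rw [← sq]; exact w2) : w ^ k = 1 ∨ w ^ k = -1) with c | c
  · have : ρ = 1 := le_antisymm ((one_le_inv₀ r0).1 (s3 (by rw [inv_pow, c, inv_one]))) (s1 c)
    exact absurd ((mem_orb kp).2 ⟨w, c, by rw [e, this]; simp⟩) h
  · refine ⟨ρ * w, ⟨ρ, w, s2 c, ?_, c, rfl⟩, e⟩
    have := s4 (by rw [inv_pow, c]; norm_num)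
    rwa [← one_div, lt_div_iff₀ r0, mul_comm] at this

end Pool.Agent.Lib.MP_990519_co.EF
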