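import Pool.Agent.Lib.MP_990519_co.EF.Cover
import Pool.Agent.Lib.MP_990519_co.EF.Pair

/-! From stability to a regular configuration. -/

open Finset Complex
open scoped ComplexConjugate Classical

namespace Pool.Agent.Lib.MP_990519_co.EF

theorem lemE (S : Finset ℂ) (hn : 2000 ≤ #S) (hS : CI S) (cen : ℂ → ℂ)
    (h : (#{q ∈ S ×ˢ S | ¬ Paired S cen q.1 q.2} : ℝ) ≤ 1 / 10 ^ 28 * (#S : ℝ) ^ 2) :
    ∃ (O q : ℂ) (k : ℕ) (r : ℂ), q ≠ 0 ∧ #S ≤ 3 * k ∧ (r = 1 ∨ Adm2 k r) ∧ O ∉ S ∧
      100 * (#((orb O q k ∪ orb O (q * r) k) \ S) + #(S \ (orb O q k ∪ orb O (q * r) k))) ≤ #S := by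
  obtain ⟨S0, kk, hS0, hc, hF⟩ := cover S hn hS cen h
  have hsd := card_sdiff_add_card_eq_card hS0
  obtain ⟨a1, ha1⟩ : S0.Nonempty := card_pos.1 (by omega)
  obtain ⟨G1, F1⟩ := hF a1 ha1
  set O := cen a1 with hO
  set q := a1 - O with hq
  set k := kk (O, ‖q‖) with hk
  have kp : 0 < k := F1.kpos (by omega)
  have u1 := F1.ku (by omega)
  have l1 := F1.kl
  have m1 := F1.miss
  have hOS : O ∉ S := fun hh => by
    have := F1.deep hS hn hh
    rw [sub_self, norm_zero] at this
    linarith [norm_nonneg q]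
  have key : ∀ a ∈ S0, ∃ G, Full S O (a - O) k G := by
    intro a ha
    obtain ⟨G, F⟩ := hF a ha
    have e : O = cen a := centre_eq hS hn F1 F
    rw [← e] at F
    by_cases hr : ‖q‖ = ‖a - O‖
    · rw [← hr] at F; exact ⟨G, F⟩
    · rw [← order_eq hS hn F1 F hr] at F; exact ⟨G, F⟩
  have self : ∀ a : ℂ, a ∈ orb O (a - O) k := fun a => (mem_orb kp).2 ⟨1, one_pow k, by ring⟩
  have cS : #(orb O q k ∩ S) ≤ #S := card_le_card inter_subset_right
  by_cases hI : S0 ⊆ orb O q k
  · refine ⟨O, q, k, 1, F1.q0, by omega, Or.inl rfl, hOS, ?_⟩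
    rw [mul_one, union_self]
    have : #(S \ orb O q k) ≤ #(S \ S0) := card_le_card (sdiff_subset_sdiff Subset.rfl hI)
    omega
  · obtain ⟨a2, ha2, n2⟩ := not_subset.1 hI
    obtain ⟨G2, F2⟩ := key a2 ha2
    have n2' : O + (a2 - O) ∉ orb O q k := by rwa [add_sub_cancel]
    obtain ⟨r, hr, e⟩ := pair hS hn F1 F2 n2'
    refine ⟨O, q, k, r, F1.q0, by omega, Or.inr hr, hOS, ?_⟩
    rw [← e]
    have u2 := F2.ku (by omega)
    have m2 := F2.miss
    have d12 := orb_disj kp n2'
    have hII : S0 ⊆ orb O q k ∪ orb O (a2 - O) k := by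
      intro a3 ha3
      by_contra n3
      rw [mem_union, not_or] at n3
      obtain ⟨G3, F3⟩ := key a3 ha3
      have u3 := F3.ku (by omega)
      have d13 := orb_disj (q2 := a3 - O) kp (by rw [add_sub_cancel]; exact n3.1)
      have d23 := orb_disj (q2 := a3 - O) kp (by rw [add_sub_cancel]; exact n3.2)
      have e1 : #(orb O q k ∩ S ∪ orb O (a2 - O) k ∩ S ∪ orb O (a3 - O) k ∩ S) ≤ #S :=
        card_le_card (union_subset (union_subset inter_subset_right inter_subset_right)
          inter_subset_right)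
      rw [card_union_of_disjoint (disjoint_union_left.2
        ⟨d13.mono inter_subset_left inter_subset_left, d23.mono inter_subset_left inter_subset_left⟩),
        card_union_of_disjoint (d12.mono inter_subset_left inter_subset_left)] at e1
      omega
    have e1 : #(S \ (orb O q k ∪ orb O (a2 - O) k)) ≤ #(S \ S0) :=
      card_le_card (sdiff_subset_sdiff Subset.rfl hII)
    have e2 : #((orb O q k ∪ orb O (a2 - O) k) \ S) ≤ #(orb O q k \ S) + #(orb O (a2 - O) k \ S) := by
      rw [union_sdiff_distrib]; exact card_union_le _ _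
    omega

end Pool.Agent.Lib.MP_990519_co.EF
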