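import Pool.Agent.Lib.MP_990519_co.EF.Defs

/-! Roots of unity on the circle. -/

open Finset Complex
open scoped ComplexConjugate Classical

namespace Pool.Agent.Lib.MP_990519_co.EF

theorem rt_pow {k : ℕ} (hk : 0 < k) (i : ℤ) :
    exp (((2 * Real.pi * i / k : ℝ) : ℂ) * I) ^ k = 1 := by
  have : (k : ℂ) ≠ 0 := by exact_mod_cast hk.ne'
  rw [← exp_nat_mul, exp_eq_one_iff]
  exact ⟨i, by push_cast; field_simp⟩

theorem rt_sub (a b : ℝ) : ‖exp (a * I) - exp (b * I)‖ ≤ |a - b| := by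
  have : exp (a * I) - exp (b * I) = exp (b * I) * (exp (I * ((a - b : ℝ) : ℂ)) - 1) := by
    rw [mul_sub, ← exp_add]; push_cast; ring_nf
  rw [this, norm_mul, norm_exp_ofReal_mul_I, one_mul]
  exact Real.norm_exp_I_mul_ofReal_sub_one_le

theorem rt_unit {c : ℂ} (hc : ‖c‖ = 1) : exp (arg c * I) = c := by
  have := norm_mul_exp_arg_mul_I c
  rwa [hc, ofReal_one, one_mul] at this

theorem arc {k : ℕ} (hk : 100 ≤ k) {c : ℂ} (hc : ‖c‖ = 1) :
    k ≤ 40 * #{h ∈ mu k | ‖h - c‖ ≤ 1 / 4} := by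
  have kp : 0 < k := by omega
  have kR : (0 : ℝ) < k := by exact_mod_cast kp
  have pi3 := Real.pi_lt_d2
  have pi0 := Real.pi_pos
  set j0 : ℤ := ⌈arg c * k / (2 * Real.pi)⌉ with hj0
  have l1 : arg c ≤ 2 * Real.pi * j0 / k := by
    have := Int.le_ceil (arg c * k / (2 * Real.pi))
    rw [div_le_iff₀ (by positivity)] at this
    rw [le_div_iff₀ kR]; linarith
  have l2 : 2 * Real.pi * j0 / k ≤ arg c + 2 * Real.pi / k := by
    have := (Int.ceil_lt_add_one (arg c * k / (2 * Real.pi))).le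
    rw [← sub_le_iff_le_add, le_div_iff₀ (by positivity)] at this
    rw [← sub_le_iff_le_add, ← sub_div, div_le_iff₀ kR]; linarith
  have : #(range (k / 26)) ≤ #{h ∈ mu k | ‖h - c‖ ≤ 1 / 4} := by
    refine card_le_card_of_injOn
      (fun j : ℕ => exp (((2 * Real.pi * ((j0 + j : ℤ) : ℝ) / k : ℝ) : ℂ) * I)) (fun j hj => ?_) ?_
    · have hj' : (26 * (j + 1) : ℝ) ≤ k := by
        have := mem_range.1 (mem_coe.1 hj)
        exact_mod_cast (by omega : 26 * (j + 1) ≤ k)
      refine mem_coe.2 (mem_filter.2 ⟨(mem_mu kp).2 (rt_pow kp _), ?_⟩)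
      rw [← rt_unit hc]
      refine (rt_sub _ _).trans ?_
      have e : 2 * Real.pi * ((j0 + j : ℤ) : ℝ) / k = 2 * Real.pi * j0 / k + 2 * Real.pi * j / k := by
        push_cast; ring
      have p1 : 0 ≤ 2 * Real.pi * j / k := by positivity
      have p2 : 2 * Real.pi / k + 2 * Real.pi * j / k ≤ 1 / 4 := by
        rw [← add_div, div_le_iff₀ kR]
        have : (0 : ℝ) ≤ j := Nat.cast_nonneg j
        nlinarith
      rw [e, abs_le]
      constructor <;> linarith
    · intro a ha b hb e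
      obtain ⟨n, hn⟩ := exp_eq_exp_iff_exists_int.1 e
      have ha' := mem_range.1 (mem_coe.1 ha)
      have hb' := mem_range.1 (mem_coe.1 hb)
      have kC : (k : ℂ) ≠ 0 := by exact_mod_cast kp.ne'
      have pC : (Real.pi : ℂ) ≠ 0 := by exact_mod_cast pi0.ne'
      have e2 : ((a : ℤ) : ℂ) = ((b + n * k : ℤ) : ℂ) := by
        push_cast at hn ⊢
        field_simp at hn
        linear_combination hn
      have e3 : (a : ℤ) = b + n * k := by exact_mod_cast e2
      have : n = 0 := by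
        by_contra h0
        rcases lt_or_gt_of_ne h0 with h | h <;> nlinarith [Nat.div_le_self k 26]
      subst this
      omega
  rw [card_range] at this
  omega

/-- the argument moves by an integer number of steps -/
theorem arg_index {k : ℕ} (hk : 0 < k) {α u : ℂ} (hα : α ≠ 0) (hu : u ^ k = 1) :
    ∃ i : ℤ, arg (α * u) = arg α + 2 * Real.pi * i / k ∧
      u = exp (((2 * Real.pi * i / k : ℝ) : ℂ) * I) := by
  have kR : (k : ℝ) ≠ 0 := by exact_mod_cast hk.ne'
  have n1 : ‖u‖ = 1 := norm_of_pow hk hu norm_one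
  have e : u = exp (((arg (α * u) - arg α : ℝ) : ℂ) * I) := by
    have h1 := norm_mul_exp_arg_mul_I (α * u)
    have h2 := norm_mul_exp_arg_mul_I α
    rw [norm_mul, n1, mul_one] at h1
    apply mul_left_cancel₀ hα
    calc α * u = ‖α‖ * exp (arg α * I + ((arg (α * u) - arg α : ℝ) : ℂ) * I) := by
          refine h1.symm.trans ?_
          congr 2
          push_cast; ring
      _ = _ := by rw [exp_add, ← mul_assoc, h2]
  have h := hu
  rw [e, ← exp_nat_mul, exp_eq_one_iff] at h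
  obtain ⟨i, hi⟩ := h
  have e2 : arg (α * u) - arg α = 2 * Real.pi * i / k := by
    have := congrArg Complex.im hi
    simp at this
    rw [eq_div_iff kR]; linarith
  exact ⟨i, by linarith, by rw [← e2]; exact e⟩

theorem few {k : ℕ} (hk : 0 < k) : #{l ∈ mu k | ‖l - 1‖ ≤ 200 / k} ≤ 101 := by
  have kR : (0 : ℝ) < k := by exact_mod_cast hk
  have pi0 := Real.pi_pos
  have : ({l ∈ mu k | ‖l - 1‖ ≤ 200 / k} : Finset ℂ) ⊆ (Icc (-50 : ℤ) 50).image
      fun i : ℤ => exp (((2 * Real.pi * i / k : ℝ) : ℂ) * I) := by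
    intro l hl
    obtain ⟨h1, h2⟩ := mem_filter.1 hl
    obtain ⟨i, hi, e⟩ := arg_index hk one_ne_zero ((mem_mu hk).1 h1)
    rw [one_mul, arg_one, zero_add] at hi
    refine mem_image.2 ⟨i, ?_, e.symm⟩
    have h3 : |2 * Real.pi * i / k / 2| ≤ Real.pi / 2 := by
      rw [← hi, abs_div, abs_two]; linarith [abs_arg_le_pi l]
    have h4 := Real.mul_abs_le_abs_sin h3
    rw [e, mul_comm _ I, norm_exp_I_mul_ofReal_sub_one, Real.norm_eq_abs, abs_mul, abs_two] at h2
    have h5 : 2 / Real.pi * |2 * Real.pi * i / k / 2| = 2 * |(i : ℝ)| / k := by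
      rw [abs_div, abs_div, abs_mul, abs_mul, abs_two, abs_of_pos pi0, abs_of_pos kR]; field_simp
    have h6 : 2 * |(i : ℝ)| / k ≤ 100 / k := by
      have : (200 : ℝ) / k = 2 * (100 / k) := by ring
      linarith
    rw [div_le_div_iff_of_pos_right kR] at h6
    have h7 : |i| ≤ 50 := by
      have : ((|i| : ℤ) : ℝ) ≤ 50 := by push_cast; linarith
      exact_mod_cast this
    exact mem_Icc.2 (abs_le.1 h7)
  exact (card_le_card this).trans (card_image_le.trans (by simp))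

theorem angle {k : ℕ} (hk : 0 < k) {w : ℂ} (hw : w ^ (2 * k) = 1) :
    ∃ u : ℕ, u ≤ k ∧ w.re = Real.cos (u * (Real.pi / k)) ∧ w ^ k = (-1) ^ u := by
  have kR : (0 : ℝ) < k := by exact_mod_cast hk
  have pi0 := Real.pi_pos
  obtain ⟨i, hi, e⟩ := arg_index (by omega : 0 < 2 * k) one_ne_zero hw
  rw [one_mul, arg_one, zero_add] at hi
  have e1 : 2 * Real.pi * i / ((2 * k : ℕ) : ℝ) = i * (Real.pi / k) := by push_cast; field_simp
  rw [e1] at hi e
  refine ⟨i.natAbs, ?_, ?_, ?_⟩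
  · have := abs_arg_le_pi w
    rw [hi, abs_mul, abs_of_pos (by positivity : 0 < Real.pi / k), ← mul_div_assoc,
      div_le_iff₀ kR] at this
    have h2 : |(i : ℝ)| ≤ k := by nlinarith
    have h3 : ((i.natAbs : ℕ) : ℝ) ≤ k := by rwa [Nat.cast_natAbs, Int.cast_abs]
    exact_mod_cast h3
  · rw [e, exp_ofReal_mul_I_re, Nat.cast_natAbs, Int.cast_abs, ← Real.cos_abs, abs_mul,
      abs_of_pos (by positivity : 0 < Real.pi / k)]
  · have kC : (k : ℂ) ≠ 0 := by exact_mod_cast hk.ne'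
    have : (k : ℂ) * (((i * (Real.pi / k) : ℝ) : ℂ) * I) = i * (Real.pi * I) := by
      push_cast; field_simp
    rw [e, ← exp_nat_mul, this, exp_int_mul, exp_pi_mul_I]
    rcases Int.even_or_odd i with h | h
    · rw [h.neg_one_zpow, (Int.natAbs_even.2 h).neg_one_pow]
    · rw [h.neg_one_zpow, (Int.natAbs_odd.2 h).neg_one_pow]

theorem zeta {k : ℕ} (hk : 2 ≤ k) :
    ∃ ζ : ℂ, ζ ^ k = 1 ∧ ζ ≠ 1 ∧ ‖ζ - 1‖ ≤ 2 * Real.pi / k := by
  have h := Complex.isPrimitiveRoot_exp k (by omega)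
  refine ⟨_, h.pow_eq_one, h.ne_one (by omega), ?_⟩
  have := rt_sub (2 * Real.pi / k) 0
  rw [sub_zero, abs_of_nonneg (by positivity)] at this
  convert this using 3
  · push_cast; ring
  · simp

theorem half {k : ℕ} (hk : 0 < k) {w : ℂ} (hw : w ^ k = -1) :
    ∃ g g' : ℂ, g ^ k = 1 ∧ g' ^ k = 1 ∧ g + g' = ((2 * Real.cos (Real.pi / k) : ℝ) : ℂ) * w := by
  have kC : (k : ℂ) ≠ 0 := by exact_mod_cast hk.ne'
  refine ⟨w * exp (Real.pi / k * I), w * exp (-(Real.pi / k) * I), ?_, ?_, ?_⟩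
  · rw [mul_pow, hw, ← exp_nat_mul, show (k : ℂ) * (Real.pi / k * I) = Real.pi * I by field_simp,
      exp_pi_mul_I]; ring
  · rw [mul_pow, hw, ← exp_nat_mul,
      show (k : ℂ) * (-(Real.pi / k) * I) = -(Real.pi * I) by field_simp, exp_neg, exp_pi_mul_I]
    norm_num
  · push_cast
    rw [two_cos]; ring_nf

end Pool.Agent.Lib.MP_990519_co.EF
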