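import Pool.Agent.Lib.MP_990519_co.EF.Chain
import Pool.Agent.Lib.MP_990519_co.EF.Root
import Pool.Agent.Lib.MP_990519_co.EF.Orbit

/-! A point off the configuration shares few distances with it. -/

open Finset Complex
open scoped ComplexConjugate Classical

namespace Pool.Agent.Lib.MP_990519_co.EF

theorem ex_cos (A x a b : ℝ) : ((A * Real.cos (x + a + b) : ℝ) : ℂ) =
    A / 2 * exp (x * I) * (exp (a * I) * exp (b * I)) +
      A / 2 * exp (-(x * I)) * (exp (a * I) * exp (b * I))⁻¹ := by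
  rw [← exp_add, ← exp_neg, mul_assoc, mul_assoc, ← exp_add, ← exp_add, ← mul_add]
  push_cast
  rw [Complex.cos]
  ring_nf

theorem ex_real {η : ℝ} (hη : 0 < η) : ∃ k0 : ℕ, ∀ k : ℕ, k0 ≤ k → ∀ (A B c x y : ℝ), 0 < A →
    0 < B → c ≠ 0 → ∀ Z : Finset (ℤ × ℤ), (∀ p ∈ Z,
      x + 2 * Real.pi * p.1 / k ∈ Set.Icc 0 Real.pi ∧ y + 2 * Real.pi * p.2 / k ∈ Set.Icc 0 Real.pi ∧
      A * Real.cos (x + 2 * Real.pi * p.1 / k) - B * Real.cos (y + 2 * Real.pi * p.2 / k) = c) →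
    (#Z : ℝ) ≤ η * k := by
  obtain ⟨k0, h0⟩ := chain3 hη
  refine ⟨k0 + 1, fun k hk A B c x y hA hB hc Z hZ => not_lt.1 fun hlt => ?_⟩
  have kR : (0 : ℝ) < k := by exact_mod_cast (by omega : 0 < k)
  have pi0 := Real.pi_pos
  have lt : ∀ (x : ℝ) (i j : ℤ), x + 2 * Real.pi * i / k < x + 2 * Real.pi * j / k ↔ i < j :=
    fun x i j => by
      rw [add_lt_add_iff_left, div_lt_div_iff_of_pos_right kR, mul_lt_mul_iff_right₀ (by positivity),
        Int.cast_lt]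
  have iff : ∀ p ∈ Z, ∀ q ∈ Z, p.1 < q.1 ↔ p.2 < q.2 := fun p hp q hq => by
    obtain ⟨a1, a2, a3⟩ := hZ p hp
    obtain ⟨b1, b2, b3⟩ := hZ q hq
    rw [← lt x, ← lt y, ← Real.strictAntiOn_cos.lt_iff_gt b1 a1,
      ← Real.strictAntiOn_cos.lt_iff_gt b2 a2]
    constructor <;> intro h <;> nlinarith
  have ch : ∀ p ∈ Z, ∀ q ∈ Z, p ≠ q → (p.1 < q.1 ∧ p.2 < q.2) ∨ (q.1 < p.1 ∧ q.2 < p.2) :=
    fun p hp q hq e => by
      have a1 := iff p hp q hq
      have a2 := iff q hq p hp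
      have : p.1 ≠ q.1 ∨ p.2 ≠ q.2 := by
        by_contra hh
        push Not at hh
        exact e (Prod.ext hh.1 hh.2)
      omega
  have bd : ∀ (x : ℝ) (i j : ℤ), x + 2 * Real.pi * i / k ∈ Set.Icc 0 Real.pi →
      x + 2 * Real.pi * j / k ∈ Set.Icc 0 Real.pi → j - i ≤ k := fun x i j a b => by
    have : 2 * Real.pi * j / k - 2 * Real.pi * i / k ≤ Real.pi := by linarith [a.1, b.2]
    rw [← sub_div, div_le_iff₀ kR] at this
    have : ((j - i : ℤ) : ℝ) ≤ (k : ℤ) := by push_cast; nlinarith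
    exact_mod_cast this
  obtain ⟨b, d, hb, hd, h⟩ := h0 k (by omega) Z ch (fun p hp q hq =>
    ⟨bd x _ _ (hZ p hp).1 (hZ q hq).1, bd y _ _ (hZ p hp).2.1 (hZ q hq).2.1⟩) hlt
  set E : ℤ → ℂ := fun i => exp ((2 * Real.pi * i / k : ℝ) * I) with hE
  have sp : ∀ (x : ℝ) (i j : ℤ), x + 2 * Real.pi * ((i + j : ℤ) : ℝ) / k =
      x + 2 * Real.pi * i / k + 2 * Real.pi * j / k := fun x i j => by push_cast; ring
  have inj : ∀ s t s' t', E (b s).1 * E (d t).1 = E (b s').1 * E (d t').1 →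
      b s + d t = b s' + d t' := by
    intro s t s' t' e
    have a1 := (hZ _ (h s t)).1
    have a2 := (hZ _ (h s' t')).1
    have a3 : Real.cos (x + 2 * Real.pi * ((b s + d t).1 : ℝ) / k) =
        Real.cos (x + 2 * Real.pi * ((b s' + d t').1 : ℝ) / k) := by
      rw [Prod.fst_add, Prod.fst_add, sp, sp, ← one_mul (Real.cos _), ← one_mul (Real.cos (x + 2 *
        Real.pi * ((b s').1 : ℝ) / k + _))]
      apply ofReal_injective
      rw [ex_cos, ex_cos]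
      exact congrArg (fun z => _ * z + _ * z⁻¹) e
    have a4 := Real.injOn_cos a1 a2 a3
    by_contra hh
    rcases ch _ (h s t) _ (h s' t') hh with a | a
    · exact ((lt x _ _).2 a.1).ne a4
    · exact ((lt x _ _).2 a.1).ne a4.symm
  refine rank3 (α := A / 2 * exp (x * I)) (α' := A / 2 * exp (-(x * I))) (β := B / 2 * exp (y * I))
    (β' := B / 2 * exp (-(y * I))) (c := c) (u := fun s => E (b s).1) (a := fun t => E (d t).1)
    (v := fun s => E (b s).2) (b := fun t => E (d t).2) (by simp [hA.ne']) (by simp [hA.ne'])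
    (ofReal_ne_zero.2 hc) (fun s s' e => hb (add_right_cancel (inj s 0 s' 0 (congrArg (· * _) e))))
    (fun t t' e => hd (add_left_cancel (inj 0 t 0 t' (congrArg (_ * ·) e))))
    (fun _ => exp_ne_zero _) (fun _ => exp_ne_zero _) fun s t => ?_
  have := (hZ _ (h s t)).2.2
  rw [Prod.fst_add, Prod.snd_add, sp, sp] at this
  rw [← ex_cos, ← ex_cos, ← this]
  push_cast; ring

theorem ex_sign {k : ℕ} (hk : 0 < k) {α u : ℂ} (hα : α ≠ 0) (hu : u ^ k = 1) :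
    ∃ (σ : Bool) (i : ℤ), (cond σ 1 (-1)) * arg α + 2 * Real.pi * i / k ∈ Set.Icc 0 Real.pi ∧
      (α * u).re = ‖α‖ * Real.cos ((cond σ 1 (-1)) * arg α + 2 * Real.pi * i / k) ∧
      u = exp (((2 * Real.pi * ((cond σ i (-i) : ℤ) : ℝ) / k : ℝ) : ℂ) * I) := by
  obtain ⟨i, h1, h2⟩ := arg_index hk hα hu
  have h3 : (α * u).re = ‖α‖ * Real.cos (arg (α * u)) := by
    rw [← norm_mul_cos_arg, norm_mul, norm_of_pow hk hu norm_one, mul_one]
  rcases le_total 0 (arg (α * u)) with h | h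
  · refine ⟨true, i, ?_, ?_, h2⟩ <;> simp only [cond_true, one_mul, ← h1]
    · exact ⟨h, arg_le_pi _⟩
    · exact h3
  · have e : -1 * arg α + 2 * Real.pi * ((-i : ℤ) : ℝ) / k = -arg (α * u) := by
      rw [h1]; push_cast; ring
    refine ⟨false, -i, ?_, ?_, by simpa only [cond_false, neg_neg] using h2⟩ <;>
      simp only [cond_false, e]
    · exact ⟨by linarith, by linarith [neg_pi_lt_arg (α * u)]⟩
    · rw [Real.cos_neg, h3]

theorem extraC {η : ℝ} (hη : 0 < η) : ∃ k0 : ℕ, ∀ k : ℕ, k0 ≤ k → ∀ (α β : ℂ) (c : ℝ),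
    α ≠ 0 → β ≠ 0 → c ≠ 0 →
    (#{u ∈ mu k | ∃ v ∈ mu k, (α * u).re - (β * v).re = c} : ℝ) ≤ η * k := by
  obtain ⟨k0, h0⟩ := ex_real (η := η / 4) (by positivity)
  refine ⟨k0 + 1, fun k hk α β c hα hβ hc => ?_⟩
  have kp : 0 < k := by omega
  set U := ({u ∈ mu k | ∃ v ∈ mu k, (α * u).re - (β * v).re = c} : Finset ℂ) with hU
  have ex : ∀ u ∈ U, ∃ (σ : Bool × Bool) (p : ℤ × ℤ),
      ((cond σ.1 1 (-1)) * arg α + 2 * Real.pi * p.1 / k ∈ Set.Icc 0 Real.pi ∧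
      (cond σ.2 1 (-1)) * arg β + 2 * Real.pi * p.2 / k ∈ Set.Icc 0 Real.pi ∧
      ‖α‖ * Real.cos ((cond σ.1 1 (-1)) * arg α + 2 * Real.pi * p.1 / k) -
        ‖β‖ * Real.cos ((cond σ.2 1 (-1)) * arg β + 2 * Real.pi * p.2 / k) = c) ∧
      u = exp (((2 * Real.pi * ((cond σ.1 p.1 (-p.1) : ℤ) : ℝ) / k : ℝ) : ℂ) * I) := by
    intro u hu
    obtain ⟨a1, v, a2, a3⟩ := mem_filter.1 hu
    obtain ⟨σ, i, b1, b2, b3⟩ := ex_sign kp hα ((mem_mu kp).1 a1)
    obtain ⟨τ, j, c1, c2, -⟩ := ex_sign kp hβ ((mem_mu kp).1 a2)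
    exact ⟨(σ, τ), (i, j), ⟨b1, c1, by rw [← b2, ← c2, a3]⟩, b3⟩
  choose! σ p h1 h2 using ex
  rw [card_eq_sum_card_fiberwise (f := σ) (t := univ) fun _ _ => mem_coe.2 (mem_univ _),
    Nat.cast_sum]
  refine (sum_le_card_nsmul _ _ (η / 4 * k) fun s _ => ?_).trans (by simp; linarith)
  rw [← card_image_of_injOn (f := p) fun a ha b hb e => by
    obtain ⟨a1, a2⟩ := mem_filter.1 (mem_coe.1 ha)
    obtain ⟨b1, b2⟩ := mem_filter.1 (mem_coe.1 hb)
    rw [h2 a a1, h2 b b1, a2, b2, e]]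
  refine h0 k (by omega) ‖α‖ ‖β‖ c ((cond s.1 1 (-1)) * arg α) ((cond s.2 1 (-1)) * arg β)
    (norm_pos_iff.2 hα) (norm_pos_iff.2 hβ) hc _ fun q hq => ?_
  obtain ⟨u, hu, rfl⟩ := mem_image.1 hq
  obtain ⟨a1, rfl⟩ := mem_filter.1 hu
  exact h1 u a1

theorem ex_dist (y x : ℂ) : dist y x ^ 2 = ‖y‖ ^ 2 + ‖x‖ ^ 2 - 2 * (y * conj x).re := by
  rw [dist_eq_norm, Complex.sq_norm, Complex.sq_norm, Complex.sq_norm, normSq_sub]

theorem extra_BB : ∃ k0 : ℕ, ∀ k : ℕ, k0 ≤ k → ∀ r : ℂ, (r = 1 ∨ Adm2 k r) → ∀ x : ℂ, x ≠ 0 →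
    x ∉ BB k r → 1000 * #{y ∈ BB k r | ∃ z ∈ BB k r, dist y x = dist y z} ≤ k := by
  obtain ⟨k0, h0⟩ := extraC (η := 1 / 4000) (by norm_num)
  refine ⟨k0 + 2, fun k hk r hr x x0 hx => ?_⟩
  have kp : 0 < k := by omega
  have r0 := ob_r0 (by omega) hr
  set U : ℂ → ℂ → Finset ℂ := fun a b => {u ∈ mu k | ‖x‖ ≠ ‖b‖ ∧ ∃ v ∈ mu k,
    (a * conj x * u).re - (a * conj b * v).re = (‖x‖ ^ 2 - ‖b‖ ^ 2) / 2} with hU
  have cU : ∀ a b : ℂ, a ≠ 0 → b ≠ 0 → 4000 * #((U a b).image fun u => a * u) ≤ k := by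
    intro a b a0 b0
    refine (Nat.mul_le_mul_left _ card_image_le).trans ?_
    by_cases e : ‖x‖ = ‖b‖
    · simp [hU, e]
    · have := h0 k (by omega) (a * conj x) (a * conj b) ((‖x‖ ^ 2 - ‖b‖ ^ 2) / 2)
        (mul_ne_zero a0 ((map_ne_zero _).2 x0)) (mul_ne_zero a0 ((map_ne_zero _).2 b0))
        fun h => e ((pow_left_inj₀ (norm_nonneg _) (norm_nonneg _) two_ne_zero).1 (by linarith))
      have h2 : (#(U a b) : ℝ) ≤ 1 / 4000 * k := le_trans (Nat.cast_le.2 (card_le_card fun u hu =>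
        mem_filter.2 ⟨(mem_filter.1 hu).1, (mem_filter.1 hu).2.2⟩)) this
      have : (4000 * #(U a b) : ℝ) ≤ k := by linarith
      exact_mod_cast this
  have key : ∀ a b u g : ℂ, u ^ k = 1 → g ^ k = 1 → a * u ∈ BB k r → b * g ∈ BB k r →
      dist (a * u) x = dist (a * u) (b * g) → a * u ∈ (U a b).image fun u => a * u := by
    intro a b u g hu hg hy hz e
    have y0 : a * u ≠ 0 := fun h => BB_zero (by omega) hr (h ▸ hy)
    have nz : ‖b * g‖ = ‖b‖ := by rw [norm_mul, norm_of_pow kp hg norm_one, mul_one]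
    refine mem_image_of_mem _ (mem_filter.2 ⟨(mem_mu kp).2 hu, fun h => ?_, u * conj g,
      (mem_mu kp).2 (by rw [mul_pow, hu, ← map_pow, hg]; simp), ?_⟩)
    · rcases mirror (O := 0) (a := b * g) (b := x) y0 (by rw [sub_zero, sub_zero, nz, h]) e.symm
        with h | h
      · exact hx (h ▸ hz)
      · rw [sub_zero, sub_zero] at h
        exact hx (h ▸ BB_sigma (by omega) hr hy hz)
    · have a1 := ex_dist (a * u) x
      have a2 := ex_dist (a * u) (b * g)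
      rw [← e, nz, map_mul] at a2
      rw [show a * conj x * u = a * u * conj x by ring,
        show a * conj b * (u * conj g) = a * u * (conj b * conj g) by ring]
      linarith
  have form : ∀ z ∈ BB k r, ∃ g : ℂ, g ^ k = 1 ∧ (z = 1 * g ∨ z = r * g) := fun z hz => by
    rcases (mem_BB kp).1 hz with h | ⟨g, hg, rfl⟩
    · exact ⟨z, h, Or.inl (one_mul z).symm⟩
    · exact ⟨g, hg, Or.inr rfl⟩
  have sb : ({y ∈ BB k r | ∃ z ∈ BB k r, dist y x = dist y z} : Finset ℂ) ⊆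
      ((U 1 1).image (fun u => 1 * u) ∪ (U 1 r).image fun u => 1 * u) ∪
      ((U r 1).image (fun u => r * u) ∪ (U r r).image fun u => r * u) := by
    intro y hy
    obtain ⟨a1, z, a2, a3⟩ := mem_filter.1 hy
    obtain ⟨u, hu, e1⟩ := form y a1
    obtain ⟨g, hg, e2⟩ := form z a2
    simp only [mem_union]
    rcases e1 with e1 | e1 <;> rcases e2 with e2 | e2 <;> rw [e2] at a2 a3 <;> rw [e1] at a1 a3 ⊢
    · exact Or.inl (Or.inl (key _ _ _ _ hu hg a1 a2 a3))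
    · exact Or.inl (Or.inr (key _ _ _ _ hu hg a1 a2 a3))
    · exact Or.inr (Or.inl (key _ _ _ _ hu hg a1 a2 a3))
    · exact Or.inr (Or.inr (key _ _ _ _ hu hg a1 a2 a3))
  have := (card_le_card sb).trans ((card_union_le _ _).trans
    (add_le_add (card_union_le _ _) (card_union_le _ _)))
  have := cU 1 1 one_ne_zero one_ne_zero
  have := cU 1 r one_ne_zero r0
  have := cU r 1 r0 one_ne_zero
  have := cU r r r0 r0
  omega

end Pool.Agent.Lib.MP_990519_co.EF
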