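import Pool.Agent.Lib.MP_990519_co.EF.Defs

/-! The exact count. -/

open Finset Complex
open scoped ComplexConjugate Classical

namespace Pool.Agent.Lib.MP_990519_co.EF

theorem fn_tie (N : Finset ℂ) (f : ℂ → ℝ) :
    #N ≤ #(N.image f) + #{p ∈ N.offDiag | f p.1 = f p.2} := by
  have ex : ∀ d ∈ N.image f, ∃ x ∈ N, f x = d := fun d hd => mem_image.1 hd
  choose! g g1 g2 using ex
  have h1 := card_filter_add_card_filter_not (s := N) fun x => g (f x) = x
  have h2 : #{x ∈ N | g (f x) = x} ≤ #(N.image f) :=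
    card_le_card_of_injOn f (fun x hx => mem_coe.2 (mem_image_of_mem _ (mem_filter.1 (mem_coe.1 hx)).1))
      fun a ha b hb e => by
        rw [← (mem_filter.1 (mem_coe.1 ha)).2, ← (mem_filter.1 (mem_coe.1 hb)).2, e]
  have h3 : #{x ∈ N | ¬ g (f x) = x} ≤ #{p ∈ N.offDiag | f p.1 = f p.2} :=
    card_le_card_of_injOn (fun x => (g (f x), x)) (fun x hx => by
      obtain ⟨a, b⟩ := mem_filter.1 (mem_coe.1 hx)
      have := mem_image_of_mem f a
      exact mem_coe.2 (mem_filter.2 ⟨mem_offDiag.2 ⟨g1 _ this, a, b⟩, g2 _ this⟩))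
      fun a _ b _ e => (Prod.ext_iff.1 e).2
  omega

theorem tc_lower {S B : Finset ℂ} {y : ℂ} (hy : y ∈ B) (y0 : y ≠ 0)
    (hσ : ∀ z ∈ B, tt 0 y * conj z ∈ B) :
    tc B y + #{x ∈ S \ B | ¬ ∃ z ∈ B, dist y x = dist y z} ≤
      tc S y + #{m ∈ B \ S | tt 0 y * conj m ∈ B \ S} +
        #{p ∈ (S \ B).offDiag | dist y p.1 = dist y p.2} := by
  set N := ({x ∈ S \ B | ¬ ∃ z ∈ B, dist y x = dist y z} : Finset ℂ) with hN
  set K := ((S ∩ B).erase y).image (dist y) with hK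
  have h1 : tc B y ≤ #K + #{m ∈ B \ S | tt 0 y * conj m ∈ B \ S} := by
    refine (card_le_card (t := K ∪ ({m ∈ B \ S | tt 0 y * conj m ∈ B \ S} : Finset ℂ).image (dist y))
      fun d hd => ?_).trans ((card_union_le _ _).trans (add_le_add le_rfl card_image_le))
    obtain ⟨m, hm, rfl⟩ := mem_image.1 hd
    obtain ⟨m1, m2⟩ := mem_erase.1 hm
    rw [mem_union, or_iff_not_imp_left]
    intro h
    refine mem_image_of_mem _ (mem_filter.2 ⟨mem_sdiff.2 ⟨m2, fun e => h ?_⟩,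
      mem_sdiff.2 ⟨hσ m m2, fun e => h ?_⟩⟩)
    · exact mem_image_of_mem _ (mem_erase.2 ⟨m1, mem_inter.2 ⟨e, m2⟩⟩)
    · refine mem_image.2 ⟨_, mem_erase.2 ⟨fun e' => m1 ?_, mem_inter.2 ⟨e, hσ m m2⟩⟩, dist_mirror y0 m⟩
      have := dist_mirror y0 m
      rw [e', dist_self] at this
      exact (dist_eq_zero.1 this.symm).symm
  have h2 : #K + #(N.image (dist y)) ≤ tc S y := by
    rw [← card_union_of_disjoint (disjoint_left.2 fun d a b => by
      obtain ⟨m, hm, rfl⟩ := mem_image.1 a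
      obtain ⟨x, hx, e⟩ := mem_image.1 b
      exact (mem_filter.1 hx).2 ⟨m, (mem_inter.1 (mem_erase.1 hm).2).2, e⟩)]
    refine card_le_card (union_subset (image_subset_image (erase_subset_erase _ inter_subset_left))
      (image_subset_image fun x hx => ?_))
    obtain ⟨a, b⟩ := mem_sdiff.1 (mem_filter.1 hx).1
    exact mem_erase.2 ⟨fun e => b (e ▸ hy), a⟩
  have h3 := fn_tie N (dist y)
  have h4 : #{p ∈ N.offDiag | dist y p.1 = dist y p.2} ≤
      #{p ∈ (S \ B).offDiag | dist y p.1 = dist y p.2} :=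
    card_le_card (filter_subset_filter _ (offDiag_mono (filter_subset _ _)))
  omega

theorem fn_swap {α β : Type} (X : Finset α) (Y : Finset β) (P : α → β → Prop)
    [∀ x y, Decidable (P x y)] {c d : ℕ} (h : ∀ y ∈ Y, d * #{x ∈ X | P x y} ≤ c) :
    d * ∑ x ∈ X, #{y ∈ Y | P x y} ≤ #Y * c := by
  have : ∑ x ∈ X, #{y ∈ Y | P x y} = ∑ y ∈ Y, #{x ∈ X | P x y} := by
    simp only [card_filter]; exact sum_comm
  rw [this, mul_sum]
  exact sum_le_card_nsmul _ _ c h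

theorem final {S B : Finset ℂ} (hS : CI S) (h0 : (0 : ℂ) ∉ S) (hB0 : (0 : ℂ) ∉ B) (hn : 2000 ≤ #S)
    (hσ : ∀ y ∈ B, ∀ z ∈ B, tt 0 y * conj z ∈ B)
    (h4 : ∀ y : ℂ, y ≠ 0 → ∀ d : ℝ, #{z ∈ B | dist y z = d} ≤ 4)
    (hsum : #(B ∩ S) * (#B - 1) ≤ 2 * ∑ y ∈ B ∩ S, tc B y + #(B \ S))
    (hex : ∀ x ∈ S \ B, 100 * #{y ∈ B | ∃ z ∈ B, dist y x = dist y z} ≤ #S)
    (hd : 100 * (#(B \ S) + #(S \ B)) ≤ #S)
    (hT : ∑ y ∈ S, tc S y ≤ (#S).choose 2) : S = B := by
  have y0 : ∀ y ∈ S, y ≠ 0 := fun y hy e => h0 (e ▸ hy)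
  have s1 := sum_le_sum fun y (hy : y ∈ B ∩ S) =>
    tc_lower (S := S) (mem_inter.1 hy).1 (y0 y (mem_inter.1 hy).2) (hσ y (mem_inter.1 hy).1)
  simp only [sum_add_distrib] at s1
  have lost : 1 * ∑ y ∈ B ∩ S, #{m ∈ B \ S | tt 0 y * conj m ∈ B \ S} ≤ #(B \ S) * (2 * #(B \ S)) := by
    refine fn_swap _ _ (fun y m => tt 0 y * conj m ∈ B \ S) fun m hm => ?_
    have m0 : conj m ≠ 0 := (map_ne_zero _).2 fun e => hB0 (e ▸ (mem_sdiff.1 hm).1)
    rw [one_mul]
    refine card_le_mul_card_image_of_maps_to (f := fun y => tt 0 y * conj m)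
      (fun y hy => (mem_filter.1 hy).2) 2 fun t _ => (card_le_card fun y hy => ?_).trans
        (line2 hS 0 (t / conj m))
    obtain ⟨a, b⟩ := mem_filter.1 hy
    have := (mem_inter.1 (mem_filter.1 a).1).2
    exact mem_filter.2 ⟨this, y0 y this, by rw [← b, mul_div_cancel_right₀ _ m0]⟩
  have ties : 1 * ∑ y ∈ B ∩ S, #{p ∈ (S \ B).offDiag | dist y p.1 = dist y p.2} ≤
      #(S \ B).offDiag * 2 := by
    refine fn_swap _ _ (fun y (p : ℂ × ℂ) => dist y p.1 = dist y p.2) fun p hp => ?_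
    rw [one_mul]
    exact (card_le_card (filter_subset_filter _ inter_subset_right)).trans
      (apex2 hS (mem_offDiag.1 hp).2.2)
  have old : 100 * ∑ y ∈ B ∩ S, #{x ∈ S \ B | ∃ z ∈ B, dist y x = dist y z} ≤ #(S \ B) * #S := by
    refine fn_swap _ _ (fun y x => ∃ z ∈ B, dist y x = dist y z) fun x hx => le_trans ?_ (hex x hx)
    exact Nat.mul_le_mul_left _ (card_le_card (filter_subset_filter _ inter_subset_left))
  have new : ∑ y ∈ B ∩ S, #{x ∈ S \ B | ∃ z ∈ B, dist y x = dist y z} +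
      ∑ y ∈ B ∩ S, #{x ∈ S \ B | ¬ ∃ z ∈ B, dist y x = dist y z} = #(B ∩ S) * #(S \ B) := by
    rw [← sum_add_distrib, sum_congr rfl fun y _ => card_filter_add_card_filter_not _, sum_const,
      smul_eq_mul]
  have ext : #(S \ B) * #(B ∩ S) ≤ 4 * ∑ y ∈ S \ B, tc S y := by
    rw [mul_sum]
    refine card_nsmul_le_sum _ _ _ fun y hy => ?_
    obtain ⟨a, b⟩ := mem_sdiff.1 hy
    refine card_le_mul_card_image_of_maps_to (f := dist y) (fun z hz => mem_image_of_mem _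
      (mem_erase.2 ⟨fun e : z = y => b (e ▸ (mem_inter.1 hz).1), (mem_inter.1 hz).2⟩)) 4 fun d _ => ?_
    exact (card_le_card (filter_subset_filter _ inter_subset_left)).trans (h4 y (y0 y a) d)
  have split : ∑ y ∈ S \ B, tc S y + ∑ y ∈ B ∩ S, tc S y = ∑ y ∈ S, tc S y := by
    rw [← sum_sdiff (inter_subset_right : B ∩ S ⊆ S), sdiff_inter_self_right]
  have c1 := card_sdiff_add_card_inter S B
  have c2 := card_sdiff_add_card_inter B S
  rw [inter_comm S B] at c1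
  have c3 : #(S \ B).offDiag ≤ #(S \ B) * #(S \ B) := by rw [offDiag_card]; omega
  have c4 : 2 * (#S).choose 2 + #S = #S * #S := by
    rw [Nat.choose_two_right, Nat.mul_div_cancel' (Nat.even_mul_pred_self _).two_dvd]
    obtain ⟨m, hm⟩ : ∃ m, #S = m + 1 := ⟨#S - 1, by omega⟩
    rw [hm, Nat.add_sub_cancel]; ring
  obtain ⟨N, hN⟩ : ∃ N, #B = N + 1 := ⟨#B - 1, by omega⟩
  rw [hN, Nat.add_sub_cancel] at hsum
  have : #(B \ S) = 0 ∧ #(S \ B) = 0 := by
    generalize #(B \ S) = μ at *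
    generalize #(S \ B) = e at *
    generalize #(B ∩ S) = a at *
    generalize #S = n at *
    subst c1
    have hN' : μ + a = N + 1 := by omega
    have e1 : a * N + a = a * μ + a * a := by rw [← mul_add_one, ← hN']; ring
    have key : 100 * (μ * a) + 150 * (e * a) ≤
        100 * μ + 400 * (μ * μ) + 500 * (e * e) + 2 * (e * (e + a)) + 100 * (e * a) := by
      nlinarith
    have a1 : μ * (100 * μ) ≤ μ * (e + a) := Nat.mul_le_mul_left _ (by omega)
    have a2 : e * (100 * e) ≤ e * (e + a) := Nat.mul_le_mul_left _ (by omega)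
    have a3 : μ * (99 * e) ≤ μ * a := Nat.mul_le_mul_left _ (by omega)
    have a4 : μ * 1000 ≤ μ * a := Nat.mul_le_mul_left _ (by omega)
    have a5 : e * 1000 ≤ e * a := Nat.mul_le_mul_left _ (by omega)
    have a6 : e * (99 * e) ≤ e * a := Nat.mul_le_mul_left _ (by omega)
    constructor <;> nlinarith
  exact Subset.antisymm (sdiff_eq_empty_iff_subset.1 (card_eq_zero.1 this.2))
    (sdiff_eq_empty_iff_subset.1 (card_eq_zero.1 this.1))

end Pool.Agent.Lib.MP_990519_co.EF
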