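import Pool.Agent.Lib.MP_990519_co.EF.Sym

/-! A circle class with few unpaired legs is almost a union of regular polygons. -/

open Finset Complex
open scoped ComplexConjugate Classical

namespace Pool.Agent.Lib.MP_990519_co.EF

/-- Markov's inequality for the rows of a relation -/
theorem fi_markov {α β : Type} (X : Finset α) (Y : Finset β) (P : α → β → Prop)
    [∀ x y, Decidable (P x y)] (c : ℝ) :
    c * #{x ∈ X | c < #{y ∈ Y | P x y}} ≤ ∑ x ∈ X, (#{y ∈ Y | P x y} : ℝ) := by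
  calc c * #{x ∈ X | c < #{y ∈ Y | P x y}} = ∑ x ∈ X with c < #{y ∈ Y | P x y}, c := by
        rw [sum_const, nsmul_eq_mul, mul_comm]
    _ ≤ ∑ x ∈ X with c < #{y ∈ Y | P x y}, (#{y ∈ Y | P x y} : ℝ) :=
        sum_le_sum fun x hx => (mem_filter.1 hx).2.le
    _ ≤ _ := sum_le_sum_of_subset_of_nonneg (filter_subset _ _) fun _ _ _ => Nat.cast_nonneg _

theorem fi_rows {α β : Type} (X : Finset α) (Y : Finset β) (P : α → β → Prop)
    [∀ x y, Decidable (P x y)] : #{q ∈ X ×ˢ Y | P q.1 q.2} = ∑ x ∈ X, #{y ∈ Y | P x y} := by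
  simp only [card_filter]
  exact sum_product' X Y fun x y => if P x y then 1 else 0

theorem fine_class {S A : Finset ℂ} (hn : 2000 ≤ #S) (hS : CI S) (hA : A ⊆ S) (hne : A.Nonempty)
    {O : ℂ} {R : ℝ} (hR : ∀ a ∈ A, ‖a - O‖ = R)
    (h : (#{q ∈ S ×ˢ A | ¬ ∃ a' ∈ A, a' ≠ q.2 ∧ dist q.1 q.2 = dist q.1 a'} : ℝ) ≤
      1 / 10 ^ 14 * #S * #A) :
    ∃ (k : ℕ) (G A0 : Finset ℂ), A0 ⊆ A ∧ 1000 * #(A \ A0) ≤ #A ∧
      ∀ a ∈ A0, Full S O (a - O) k G := by
  set P : ℂ → ℂ → Prop := fun y a => ¬ ∃ a' ∈ A, a' ≠ a ∧ dist y a = dist y a' with hP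
  have h' : ∑ y ∈ S, (#{a ∈ A | P y a} : ℝ) ≤ 1 / 10 ^ 14 * #S * #A := by
    refine le_trans (le_of_eq ?_) h
    rw [← Nat.cast_sum, ← fi_rows S A P]
  have Ap : (0 : ℝ) < #A := by exact_mod_cast card_pos.2 hne
  have nR : (2000 : ℝ) ≤ #S := by exact_mod_cast hn
  have AS : (#A : ℝ) ≤ #S := by exact_mod_cast card_le_card hA
  set Bd := ({y ∈ S | (1 / 10 ^ 7 * #A : ℝ) < #{a ∈ A | P y a}} : Finset ℂ) with hBd
  have cB : (#Bd : ℝ) ≤ 1 / 10 ^ 7 * #S := by
    have := (fi_markov S A P (1 / 10 ^ 7 * #A)).trans h'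
    refine le_of_mul_le_mul_left (this.trans (le_of_eq (by ring))) (by positivity)
  set G := (S \ Bd).erase O with hG
  have GS : G ⊆ S := (erase_subset _ _).trans sdiff_subset
  have cG : (#(S \ G) : ℝ) ≤ 1 / 10 ^ 7 * #S + 1 := by
    have : #(S \ G) ≤ #Bd + 1 := (card_le_card (t := insert O Bd) fun z => by
      simp only [hG, mem_sdiff, mem_erase, mem_insert]; tauto).trans (card_insert_le _ _)
    have : (#(S \ G) : ℝ) ≤ #Bd + 1 := by exact_mod_cast this
    linarith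
  have cG2 : (#(S \ G) : ℝ) + #G = #S := by exact_mod_cast card_sdiff_add_card_eq_card GS
  have good : ∀ y ∈ G, y ≠ O ∧ (#{a ∈ A | P y a} : ℝ) ≤ 1 / 10 ^ 7 * #A := fun y hy => by
    obtain ⟨a1, a2⟩ := mem_erase.1 hy
    obtain ⟨a3, a4⟩ := mem_sdiff.1 a2
    exact ⟨a1, not_lt.1 fun e => a4 (mem_filter.2 ⟨a3, e⟩)⟩
  have OA : ∀ a ∈ A, a - O ≠ 0 := by
    intro a ha e
    obtain ⟨y, hy⟩ : G.Nonempty := card_pos.1 (by
      have : (0 : ℝ) < #G := by linarith
      exact_mod_cast this)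
    have := (good y hy).2
    rw [filter_true_of_mem] at this
    · linarith
    · rintro b hb ⟨c, hc, c1, -⟩
      have r0 : R = 0 := by rw [← hR a ha, e, norm_zero]
      exact c1 ((sub_eq_zero.1 (norm_eq_zero.1 ((hR c hc).trans r0))).trans
        (sub_eq_zero.1 (norm_eq_zero.1 ((hR b hb).trans r0))).symm)
  have c3 : #G ≤ 2 * #(G.image (tt O)) :=
    card_le_mul_card_image _ 2 fun t _ => (card_le_card fun y hy => by
      obtain ⟨a, b⟩ := mem_filter.1 hy
      exact mem_filter.2 ⟨GS a, (good y a).1, b⟩).trans (line2 hS O t)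
  have c4 : (#G : ℝ) ≤ 2 * #(G.image (tt O)) := by exact_mod_cast c3
  have inj : Function.Injective fun a : ℂ => a - O := sub_left_injective
  have cA : #(A.image fun a => a - O) = #A := card_image_of_injective _ inj
  have tr : ∀ (Q : ℂ → Prop) [DecidablePred Q],
      #{a ∈ A.image fun a => a - O | Q a} = #{a ∈ A | Q (a - O)} := fun Q _ => by
    rw [filter_image, card_image_of_injective _ inj]
  have mem : ∀ z, z ∈ A.image (fun a => a - O) ↔ O + z ∈ A := fun z => by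
    simp only [mem_image]
    exact ⟨fun ⟨a, ha, e⟩ => by rwa [← e, add_sub_cancel], fun h => ⟨_, h, by ring⟩⟩
  obtain ⟨k, kp, k1, k2, k3⟩ := sym_group (A.image fun a => a - O) (G.image (tt O))
    (fun h0 => by obtain ⟨a, ha, e⟩ := mem_image.1 h0; exact OA a ha e) (hne.image _)
    (fun t ht => by obtain ⟨y, hy, rfl⟩ := mem_image.1 ht; exact norm_tt (good y hy).1)
    (ε := 1 / 10 ^ 7) (by positivity) (by norm_num)
    (fun t ht => by
      obtain ⟨y, hy, rfl⟩ := mem_image.1 ht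
      rw [tr, cA]
      refine le_trans (Nat.cast_le.2 (card_le_card fun a ha => ?_)) (good y hy).2
      obtain ⟨a1, a2⟩ := mem_filter.1 ha
      refine mem_filter.2 ⟨a1, fun ⟨b, b1, b2, b3⟩ => a2 ?_⟩
      rw [← (mirror (good y hy).1 ((hR b b1).trans (hR a a1).symm) b3).resolve_left b2]
      exact mem_image_of_mem _ b1)
    (by rw [cA]; linarith)
  have kR : (0 : ℝ) < k := by exact_mod_cast kp
  set Q : ℂ → ℂ → Prop := fun a g => O + (a - O) * g ∉ A with hQ
  have sm : ∑ a ∈ A, (#{g ∈ mu k | Q a g} : ℝ) ≤ k * (8 * (1 / 10 ^ 7) * #A) := by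
    have e : ∑ a ∈ A, #{g ∈ mu k | Q a g} = ∑ g ∈ mu k, #{a ∈ A | Q a g} := by
      simp only [card_filter]; exact sum_comm
    rw [← Nat.cast_sum, e, Nat.cast_sum]
    refine (sum_le_card_nsmul _ _ (8 * (1 / 10 ^ 7) * (#A : ℝ)) fun g hg => ?_).trans
      (by rw [card_mu kp, nsmul_eq_mul])
    have := k3 g ((mem_mu kp).1 hg)
    rw [tr, cA] at this
    refine le_trans (le_of_eq ?_) this
    congr 2
    ext a
    simp only [hQ, mem, mul_comm]
  have mk := (fi_markov A (mu k) Q (k / 1000)).trans sm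
  refine ⟨k, G, {a ∈ A | ¬ (k / 1000 : ℝ) < #{g ∈ mu k | Q a g}}, filter_subset _ _, ?_,
    fun a ha => ?_⟩
  · rw [filter_not, Finset.sdiff_sdiff_eq_self (filter_subset _ _)]
    have : (1000 * #{a ∈ A | (k / 1000 : ℝ) < #{g ∈ mu k | Q a g}} : ℝ) ≤ #A :=
      le_of_mul_le_mul_left (by nlinarith) kR
    exact_mod_cast this
  · obtain ⟨a1, a2⟩ := mem_filter.1 ha
    have k1' : (#(G.image (tt O)) : ℝ) ≤ k := by exact_mod_cast k1
    refine ⟨OA a a1, ?_, ?_, GS, notMem_erase _ _, ?_,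
      fun y hy y' hy' => k2 _ (mem_image_of_mem _ hy) _ (mem_image_of_mem _ hy')⟩
    · have : (49 * #S : ℝ) ≤ 100 * k := by linarith
      exact_mod_cast this
    · have b1 : #(orb O (a - O) k \ S) ≤ #{g ∈ mu k | Q a g} := by
        refine (card_le_card fun z hz => ?_).trans
          (card_image_le (f := fun g => O + (a - O) * g))
        obtain ⟨z1, z2⟩ := mem_sdiff.1 hz
        obtain ⟨g, hg, rfl⟩ := mem_image.1 z1
        exact mem_image_of_mem _ (mem_filter.2 ⟨hg, fun e => z2 (hA e)⟩)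
      have b2 : (#(orb O (a - O) k \ S) : ℝ) ≤ #{g ∈ mu k | Q a g} := by exact_mod_cast b1
      have : (1000 * #(orb O (a - O) k \ S) : ℝ) ≤ k := by linarith [not_lt.1 a2]
      exact_mod_cast this
    · have : (1000 * #(S \ G) : ℝ) ≤ #S := by linarith
      exact_mod_cast this

end Pool.Agent.Lib.MP_990519_co.EF
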