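import Pool.Agent.Lib.MP_990519_co.EF.EMain
import Pool.Agent.Lib.MP_990519_co.EF.Count
import Pool.Agent.Lib.MP_990519_co.EF.Extra
import Pool.Agent.Lib.MP_990519_co.EF.Final

/-! Stability implies condition (i). -/

open Finset Complex
open scoped ComplexConjugate Classical

namespace Pool.Agent.Lib.MP_990519_co.EF

theorem mn_tc (S : Finset ℂ) (x : ℂ) :
    ((fun y : ℂ => dist x y) '' ((S : Set ℂ) \ {x})).ncard = tc S x := by
  rw [tc, ← Set.ncard_coe_finset, coe_image, coe_erase]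

theorem mn_ci (O : ℂ) {q : ℂ} (hq : q ≠ 0) {S : Finset ℂ}
    (h : CI (S.image fun z => O + q * z)) : CI S := by
  let f : ℂ →ᵃ[ℝ] ℂ := AffineMap.const ℝ ℂ O + (LinearMap.mulLeft ℝ q).toAffineMap
  have hf : ∀ z, f z = O + q * z := fun z => rfl
  refine convexIndependent_set_iff_notMem_convexHull_sdiff.2 fun x hx hh => ?_
  refine convexIndependent_set_iff_notMem_convexHull_sdiff.1 h (O + q * x)
    (mem_coe.2 (mem_image_of_mem _ hx)) ?_
  have h1 : f x ∈ convexHull ℝ (f '' ((S : Set ℂ) \ {x})) := by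
    rw [← AffineMap.image_convexHull]; exact Set.mem_image_of_mem _ hh
  refine convexHull_mono ?_ h1
  rintro _ ⟨y, ⟨hy, hyx⟩, rfl⟩
  exact ⟨mem_coe.2 (mem_image_of_mem (fun z => O + q * z) hy), fun e => hyx (orb_inj O hq e)⟩

theorem lemF : ∃ n0 : ℕ, ∀ (S : Finset ℂ) (k : ℕ) (r : ℂ), n0 ≤ #S → CI S → #S ≤ 3 * k →
    (r = 1 ∨ Adm2 k r) → (0 : ℂ) ∉ S → 100 * (#(BB k r \ S) + #(S \ BB k r)) ≤ #S →
    ∑ y ∈ S, tc S y ≤ (#S).choose 2 → CondI S := by
  obtain ⟨k0, hex⟩ := extra_BB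
  refine ⟨3 * k0 + 2000, fun S k r hn hS hk hr h0 hd hT => ?_⟩
  have k2 : 20 ≤ k := by omega
  have hkB : k ≤ #(BB k r) := by
    have := card_le_card (subset_union_left : mu k ⊆ BB k r)
    rwa [card_mu (by omega)] at this
  have h1 := card_sdiff_add_card_inter (BB k r) S
  have h2 : #(BB k r ∩ S) ≤ #S := card_le_card inter_subset_right
  rw [final hS h0 (BB_zero (by omega) hr) (by omega)
    (fun y hy z hz => BB_sigma (by omega) hr hy hz) (fun y hy d => four (by omega) r hy d)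
    (sum_BB k2 hr S) (fun x hx => ?_) hd hT]
  · exact condI_BB k2 hr
  · obtain ⟨hx1, hx2⟩ := mem_sdiff.1 hx
    have := hex k (by omega) r hr x (fun e => h0 (e ▸ hx1)) hx2
    omega

theorem endgame : ∃ δ : ℝ, 0 < δ ∧ ∃ n0 : ℕ, ∀ S : Finset ℂ, n0 ≤ S.card →
    ConvexIndependent ℝ (fun p : (S : Set ℂ) => (p : ℂ)) → ∀ cen : ℂ → ℂ,
    (((S ×ˢ S).filter fun q => ¬ Paired S cen q.1 q.2).card : ℝ) ≤ δ * (S.card : ℝ) ^ 2 →
    (∑ x ∈ S, ((fun y : ℂ => dist x y) '' ((S : Set ℂ) \ {x})).ncard) ≤ S.card.choose 2 →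
    ∀ x ∈ S, ∀ a ∈ S, ∀ b ∈ S, ∀ c ∈ S, a ≠ b → a ≠ c → b ≠ c →
      dist x a = dist x b → dist x a = dist x c → ∀ z ∈ S, dist x z ≤ dist x a := by
  obtain ⟨n0, hF⟩ := lemF
  refine ⟨1 / 10 ^ 28, by positivity, max n0 2000, fun S hn hS cen h hT => ?_⟩
  obtain ⟨O, q, k, r, q0, hk, hr, hO, hd⟩ := lemE S (le_of_max_le_right hn) hS cen h
  set g : ℂ → ℂ := fun z => O + q * z with hg
  have gi : Function.Injective g := orb_inj O q0
  have gd : ∀ a b, dist (g a) (g b) = ‖q‖ * dist a b := fun a b => by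
    rw [dist_eq_norm, dist_eq_norm, ← norm_mul]; congr 1; simp only [hg]; ring
  have qp : 0 < ‖q‖ := norm_pos_iff.2 q0
  obtain ⟨S', rfl⟩ : ∃ S' : Finset ℂ, S = S'.image g := by
    refine ⟨S.image fun z => (z - O) / q, ?_⟩
    rw [image_image]
    conv_lhs => rw [← image_id (s := S)]
    congr 1
    funext z
    simp only [hg, Function.comp, id]; field_simp; ring
  have eB : orb O q k ∪ orb O (q * r) k = (BB k r).image g := by
    rw [BB, image_union, image_image, orb, orb]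
    congr 2
    funext z
    simp only [hg, Function.comp, mul_assoc]
  rw [eB, ← image_sdiff _ _ gi, ← image_sdiff _ _ gi] at hd
  simp only [card_image_of_injective _ gi] at hd hk hn
  have hS' : CI S' := mn_ci O q0 hS
  have hT' : ∑ y ∈ S', tc S' y ≤ (#S').choose 2 := by
    rw [card_image_of_injective _ gi, sum_image (fun a _ b _ e => gi e)] at hT
    refine le_trans (le_of_eq (sum_congr rfl fun y _ => ?_)) hT
    rw [mn_tc, tc, tc, ← image_erase gi, image_image]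
    have : (dist (g y)) ∘ g = (fun t => ‖q‖ * t) ∘ dist y := funext fun z => gd y z
    rw [this, ← image_image, card_image_of_injective _ (mul_right_injective₀ qp.ne')]
  have h0 : (0 : ℂ) ∉ S' := fun hh => hO (mem_image.2 ⟨0, hh, by simp [hg]⟩)
  have := hF S' k r (le_of_max_le_left hn) hS' hk hr h0 hd hT'
  simp only [forall_mem_image, gd]
  intro x hx a ha b hb c hc h1 h2 h3 h4 h5 z hz
  exact mul_le_mul_of_nonneg_left (this x hx a ha b hb c hc (fun e => h1 (e ▸ rfl))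
    (fun e => h2 (e ▸ rfl)) (fun e => h3 (e ▸ rfl)) (mul_left_cancel₀ qp.ne' h4)
    (mul_left_cancel₀ qp.ne' h5) z hz) qp.le

end Pool.Agent.Lib.MP_990519_co.EF
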