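import Pool.Agent.Lib.MP_990519_co.EF.Root

/-! Supporting lines against an almost complete regular polygon. -/

open Finset Complex
open scoped ComplexConjugate Classical

namespace Pool.Agent.Lib.MP_990519_co.EF

variable {S G : Finset ℂ} {O q : ℂ} {k : ℕ}

theorem support (hS : CI S) (h2 : 2 ≤ #S) {x : ℂ} (hx : x ∈ S) :
    ∃ e : ℂ, ‖e‖ = 1 ∧ ∀ s ∈ S, s ≠ x → (conj e * x).re < (conj e * s).re := by
  have h := convexIndependent_set_iff_notMem_convexHull_sdiff.1 hS x (mem_coe.2 hx)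
  have hc : IsCompact (convexHull ℝ ((S : Set ℂ) \ {x})) :=
    (S.finite_toSet.subset Set.sdiff_subset).isCompact_convexHull ℝ
  obtain ⟨f, u, h1, h3⟩ := geometric_hahn_banach_point_closed (convex_convexHull ℝ _) hc.isClosed h
  have h4 : ∀ s ∈ S, s ≠ x → f x < f s := fun s hs e =>
    h1.trans (h3 s (subset_convexHull ℝ _ ⟨mem_coe.2 hs, e⟩))
  have hf : ∀ z : ℂ, f z = (conj ((f 1 : ℂ) + f I * I) * z).re := fun z => by
    have : z = z.re • (1 : ℂ) + z.im • I := by apply Complex.ext <;> simp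
    conv_lhs => rw [this, map_add, map_smul, map_smul]
    simp; ring
  set e0 : ℂ := (f 1 : ℂ) + f I * I
  have e00 : e0 ≠ 0 := by
    intro h0
    obtain ⟨s, hs, e⟩ := exists_mem_ne (by omega : 1 < #S) x
    have := h4 s hs e
    rw [hf, hf s, h0] at this
    simp at this
  have np : 0 < ‖e0‖ := norm_pos_iff.2 e00
  refine ⟨(‖e0‖⁻¹ : ℝ) * e0, by simp [np.ne'], fun s hs e => ?_⟩
  have := h4 s hs e
  rw [hf, hf s] at this
  rw [map_mul, conj_ofReal, mul_assoc, mul_assoc, re_ofReal_mul, re_ofReal_mul]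
  exact mul_lt_mul_of_pos_left this (inv_pos.2 np)

theorem Full.near (h : Full S O q k G) (hn : 2000 ≤ #S) {c : ℂ} (hc : ‖c‖ = 1) :
    ∃ g : ℂ, g ^ k = 1 ∧ O + q * g ∈ S ∧ ‖g - c‖ ≤ 1 / 4 := by
  have l := h.kl
  have kp : 0 < k := by omega
  have h1 := arc (by omega : 100 ≤ k) hc
  have h2 := card_miss O h.q0 kp (one_pow k) S
  have h3 := h.miss
  by_contra hh
  push Not at hh
  have : #{g ∈ mu k | ‖g - c‖ ≤ 1 / 4} ≤ #{g ∈ mu k | O + q * (1 * g) ∉ S} :=
    card_le_card fun g hg => by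
      obtain ⟨a, b⟩ := mem_filter.1 hg
      refine mem_filter.2 ⟨a, fun e => ?_⟩
      rw [one_mul] at e
      exact (hh g ((mem_mu kp).1 a) e).not_ge b
  omega

theorem Full.supp_neg (h : Full S O q k G) (hn : 2000 ≤ #S) {x e : ℂ} (he : ‖e‖ = 1)
    (hs : ∀ s ∈ S, s ≠ x → (conj e * x).re < (conj e * s).re) :
    (conj e * (x - O)).re ≤ -(3 / 4) * ‖q‖ := by
  have q0 := h.q0
  have np : 0 < ‖q‖ := norm_pos_iff.2 q0
  obtain ⟨g, -, h2, h3⟩ := h.near hn (c := -e * ‖q‖ / q) (by simp [he, np.ne'])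
  have h4 : (conj e * x).re ≤ (conj e * (O + q * g)).re := by
    by_cases e1 : O + q * g = x
    · rw [e1]
    · exact (hs _ h2 e1).le
  have ee : conj e * e = 1 := by rw [conj_mul', he]; simp
  have h5 : conj e * (O + q * g) = conj e * O + (conj e * q * (g - -e * ‖q‖ / q) - ‖q‖) := by
    field_simp
    linear_combination (-(‖q‖ : ℂ)) * ee
  have h6 : (conj e * q * (g - -e * ‖q‖ / q)).re ≤ ‖q‖ * (1 / 4) := by
    refine (re_le_norm _).trans ?_
    rw [norm_mul, norm_mul, Complex.norm_conj, he, one_mul]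
    exact mul_le_mul_of_nonneg_left h3 np.le
  rw [h5, add_re, sub_re, ofReal_re] at h4
  rw [mul_sub, sub_re]
  linarith

theorem Full.deep (h : Full S O q k G) (hS : CI S) (hn : 2000 ≤ #S) {x : ℂ} (hx : x ∈ S) :
    ‖q‖ / 2 < ‖x - O‖ := by
  obtain ⟨e, he, hs⟩ := support hS (by omega) hx
  have h1 := h.supp_neg hn he hs
  have h2 := abs_re_le_norm (conj e * (x - O))
  rw [norm_mul, Complex.norm_conj, he, one_mul] at h2
  have np : 0 < ‖q‖ := norm_pos_iff.2 h.q0
  linarith [(abs_le.1 h2).1]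

theorem Full.no_inner (h : Full S O q k G) (hS : CI S) (hn : 2000 ≤ #S) {x a b : ℂ} (hx : x ∈ S)
    (ha : a ∈ S) (hb : b ∈ S) (hax : a ≠ x) (hbx : b ≠ x) {l : ℝ} (h0 : 0 ≤ l) (h1 : 2 * l ≤ 1)
    (e : x - O = (l : ℂ) * ((a - O) + (b - O))) : False := by
  obtain ⟨v, he, hs⟩ := support hS (by omega) hx
  have h2 := h.supp_neg hn he hs
  have np : 0 < ‖q‖ := norm_pos_iff.2 h.q0
  have h3 := hs a ha hax
  have h4 := hs b hb hbx
  have h5 : (conj v * (x - O)).re =
      l * ((conj v * a).re + (conj v * b).re - 2 * (conj v * O).re) := by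
    rw [e, mul_left_comm, re_ofReal_mul, mul_add, mul_sub, mul_sub, add_re, sub_re, sub_re]; ring
  rw [mul_sub, sub_re] at h2 h5
  rcases h0.eq_or_lt with rfl | h0
  · linarith
  · nlinarith

end Pool.Agent.Lib.MP_990519_co.EF
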