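import Pool.Agent.Lib.MP_990519_co.EF.Defs

/-! Approximate symmetries form a finite group. -/

open Finset Complex
open scoped ComplexConjugate Classical Pointwise

namespace Pool.Agent.Lib.MP_990519_co.EF

/-- number of points moved out of `A` -/
noncomputable def sy_out (A : Finset ℂ) (g : ℂ) : ℕ := #{a ∈ A | g * a ∉ A}

theorem sy_comp (A : Finset ℂ) {f : ℂ → ℂ} (g : ℂ → ℂ) (hf : Function.Injective f) :
    #{a ∈ A | g (f a) ∉ A} ≤ #{a ∈ A | f a ∉ A} + #{a ∈ A | g a ∉ A} := by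
  have h1 : #{a ∈ A | f a ∈ A ∧ g (f a) ∉ A} ≤ #{a ∈ A | g a ∉ A} :=
    card_le_card_of_injOn f (fun a ha => mem_coe.2 (mem_filter.2 (mem_filter.1 (mem_coe.1 ha)).2))
      hf.injOn
  refine (card_le_card fun a => ?_).trans ((card_union_le _ _).trans (add_le_add le_rfl h1))
  simp only [mem_union, mem_filter]
  tauto

theorem sy_inv (A : Finset ℂ) {g : ℂ} (hg : g ≠ 0) : sy_out A g⁻¹ ≤ sy_out A g := by
  have h1 := card_filter_add_card_filter_not (s := A) fun a => g * a ∈ A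
  have h2 := card_filter_add_card_filter_not (s := A) fun a => g⁻¹ * a ∈ A
  have h3 : #{a ∈ A | g * a ∈ A} ≤ #{a ∈ A | g⁻¹ * a ∈ A} :=
    card_le_card_of_injOn (fun a => g * a) (fun a ha => by
      obtain ⟨a1, a2⟩ := mem_filter.1 (mem_coe.1 ha)
      exact mem_coe.2 (mem_filter.2 ⟨a2, by rwa [inv_mul_cancel_left₀ hg]⟩))
      (mul_right_injective₀ hg).injOn
  unfold sy_out
  omega

theorem sy_card {A : Finset ℂ} (hA : (0 : ℂ) ∉ A) (hne : A.Nonempty) (P : Finset ℂˣ) {s : ℝ}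
    (h : ∀ g ∈ P, (sy_out A g : ℝ) ≤ s * #A) : (1 - s) * #P ≤ #A := by
  have Ap : (0 : ℝ) < #A := by exact_mod_cast card_pos.2 hne
  have h1 : #(P.sigma fun g => {a ∈ A | (g : ℂ) * a ∈ A}) ≤ #(A ×ˢ A) := by
    refine card_le_card_of_injOn (fun p => (p.2, (p.1 : ℂ) * p.2)) (fun p hp => ?_) ?_
    · exact mem_coe.2 (mem_product.2 (mem_filter.1 (mem_sigma.1 (mem_coe.1 hp)).2))
    · rintro ⟨g, a⟩ hp ⟨g', a'⟩ - e
      obtain ⟨e1, e2⟩ := Prod.ext_iff.1 e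
      have a0 : a ≠ 0 := fun e => hA (e ▸ (mem_filter.1 (mem_sigma.1 (mem_coe.1 hp)).2).1)
      obtain rfl : a = a' := e1
      obtain rfl : g = g' := Units.ext (mul_right_cancel₀ a0 e2)
      rfl
  rw [card_sigma, card_product] at h1
  have h2 : ∑ g ∈ P, (#{a ∈ A | (g : ℂ) * a ∈ A} : ℝ) ≤ #A * #A := by exact_mod_cast h1
  have h3 := card_nsmul_le_sum P (fun g => (#{a ∈ A | (g : ℂ) * a ∈ A} : ℝ)) ((1 - s) * #A)
    fun g hg => by
      have a1 := card_filter_add_card_filter_not (s := A) fun a => (g : ℂ) * a ∈ A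
      have a2 : (#{a ∈ A | (g : ℂ) * a ∈ A} : ℝ) + sy_out A g = #A := by exact_mod_cast a1
      linarith [h g hg]
  rw [nsmul_eq_mul] at h3
  exact le_of_mul_le_mul_right (by linarith) Ap

theorem sy_fin {A : Finset ℂ} (hA : (0 : ℂ) ∉ A) (hne : A.Nonempty) {s : ℝ} (hs : s < 1) :
    ∃ P : Finset ℂˣ, ∀ g : ℂˣ, g ∈ P ↔ (sy_out A g : ℝ) ≤ s * #A := by
  have Ap : (0 : ℝ) < #A := by exact_mod_cast card_pos.2 hne
  have : {g : ℂˣ | (sy_out A g : ℝ) ≤ s * #A}.Finite := by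
    refine Set.Finite.of_finite_image (f := Units.val) (((A ×ˢ A).image
      fun p => p.1 / p.2).finite_toSet.subset ?_) Units.val_injective.injOn
    rintro _ ⟨g, hg, rfl⟩
    by_contra hh
    have : sy_out A g = #A := congrArg card (filter_true_of_mem fun a ha e => hh (mem_coe.2
      (mem_image.2 ⟨(g * a, a), mem_product.2 ⟨e, ha⟩,
        mul_div_cancel_right₀ _ fun e => hA (e ▸ ha)⟩)))
    rw [Set.mem_ofPred_eq, this] at hg
    nlinarith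
  exact ⟨this.toFinset, fun g => by simp⟩

theorem sy_group (P : Finset ℂˣ) (h1 : (1 : ℂˣ) ∈ P) (hi : ∀ g ∈ P, g⁻¹ ∈ P)
    (h : #(P * P) < (3 / 2 : ℚ) * #P) :
    ∃ k : ℕ, 0 < k ∧ #P ≤ k ∧ (∀ g ∈ P, (g : ℂ) ^ k = 1) ∧
      ∀ z : ℂ, z ^ k = 1 → ∃ g ∈ P, ∃ g' ∈ P, z = g * g' := by
  obtain ⟨H, _, c1, c2⟩ := doubling_lt_three_halves h
  have sub : ∀ g ∈ P, g ∈ H := fun g hg => by simpa using (c2 1 h1).1 (mem_coe.2 hg)
  set T : Finset ℂˣ := (H : Set ℂˣ).toFinset with hT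
  have cT : #T = Fintype.card H := by rw [hT, Set.toFinset_card]; rfl
  have mT : ∀ g, g ∈ T ↔ g ∈ H := fun g => by simp [hT]
  have kp : 0 < Fintype.card H := Fintype.card_pos
  have pw : ∀ g ∈ H, (g : ℂ) ^ Fintype.card H = 1 := fun g hg => by
    have := congrArg (fun x : H => ((x : ℂˣ) : ℂ)) (pow_card_eq_one (x := (⟨g, hg⟩ : H)))
    simpa only [Subgroup.coe_pow, Units.val_pow_eq_pow_val, Subgroup.coe_one, Units.val_one] using this
  have PT : P ⊆ T := fun g hg => (mT g).2 (sub g hg)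
  refine ⟨_, kp, cT ▸ card_le_card PT, fun g hg => pw g (sub g hg), fun z hz => ?_⟩
  have e : T.image Units.val = mu (Fintype.card H) := eq_of_subset_of_card_le
    (fun z hz => by
      obtain ⟨g, hg, rfl⟩ := mem_image.1 hz
      exact (mem_mu kp).2 (pw g ((mT g).1 hg)))
    (by rw [card_image_of_injective _ Units.val_injective, card_mu kp, cT])
  obtain ⟨g, hg, rfl⟩ := mem_image.1 (e ▸ (mem_mu kp).2 hz)
  by_contra hh
  have dj : Disjoint P (P.image fun x => g * x) := disjoint_left.2 fun x hx hx' => by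
    obtain ⟨y, hy, rfl⟩ := mem_image.1 hx'
    exact hh ⟨_, hx, _, hi y hy, by simp⟩
  have sb : P ∪ P.image (fun x => g * x) ⊆ T := union_subset PT fun x hx => by
    obtain ⟨y, hy, rfl⟩ := mem_image.1 hx
    exact (mT _).2 (H.mul_mem ((mT g).1 hg) (sub y hy))
  have := card_le_card sb
  rw [card_union_of_disjoint dj, card_image_of_injective _ (mul_right_injective g), cT] at this
  have c3 : ((#P + #P : ℕ) : ℚ) ≤ Fintype.card H := by exact_mod_cast this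
  push_cast at c3
  linarith [(Nat.cast_nonneg _ : (0 : ℚ) ≤ #P)]

theorem sym_group (A Θ : Finset ℂ) (hA : (0 : ℂ) ∉ A) (hne : A.Nonempty) (hΘ : ∀ t ∈ Θ, ‖t‖ = 1)
    {ε : ℝ} (h0 : 0 ≤ ε) (h1 : ε ≤ 1 / 100)
    (h : ∀ t ∈ Θ, (#{a ∈ A | t * conj a ∉ A} : ℝ) ≤ ε * #A)
    (hsz : (4 * #A : ℝ) < 9 * (1 - 8 * ε) * #Θ) :
    ∃ k : ℕ, 0 < k ∧ #Θ ≤ k ∧ (∀ t ∈ Θ, ∀ t' ∈ Θ, (t / t') ^ k = 1) ∧
      ∀ g : ℂ, g ^ k = 1 → (#{a ∈ A | g * a ∉ A} : ℝ) ≤ 8 * ε * #A := by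
  have Ap : (0 : ℝ) < #A := by exact_mod_cast card_pos.2 hne
  have t0 : ∀ t ∈ Θ, t ≠ 0 := fun t ht => norm_ne_zero_iff.1 (by rw [hΘ t ht]; simp)
  have mul : ∀ g g' : ℂˣ, (sy_out A (g * g' : ℂˣ) : ℝ) ≤ sy_out A g + sy_out A g' := fun g g' => by
    have := sy_comp A (f := fun a => (g' : ℂ) * a) (fun a => (g : ℂ) * a)
      (mul_right_injective₀ g'.ne_zero)
    simp only [← mul_assoc] at this
    have : sy_out A (g * g' : ℂˣ) ≤ sy_out A g + sy_out A g' := this.trans (add_comm _ _).le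
    exact_mod_cast this
  have quo : ∀ t ∈ Θ, ∀ t' ∈ Θ, (sy_out A (t / t') : ℝ) ≤ 2 * ε * #A := fun t ht t' ht' => by
    have := sy_comp A (f := fun a => t' * conj a) (fun a => t * conj a)
      fun a b e => (starRingEnd ℂ).injective (mul_left_cancel₀ (t0 t' ht') e)
    simp only [map_mul, conj_conj, ← inv_eq_conj (hΘ t' ht'), ← mul_assoc, ← div_eq_mul_inv] at this
    have : (sy_out A (t / t') : ℝ) ≤ #{a ∈ A | t' * conj a ∉ A} + #{a ∈ A | t * conj a ∉ A} := by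
      exact_mod_cast this
    linarith [h t ht, h t' ht']
  have main : ∀ (s : ℝ) (P : Finset ℂˣ), 2 * ε ≤ s → s ≤ 4 * ε →
      (∀ g : ℂˣ, g ∈ P ↔ (sy_out A g : ℝ) ≤ s * #A) → #Θ ≤ #P ∧ (#(P * P) < (3 / 2 : ℝ) * #P →
      ∃ k : ℕ, 0 < k ∧ #Θ ≤ k ∧ (∀ t ∈ Θ, ∀ t' ∈ Θ, (t / t') ^ k = 1) ∧
      ∀ g : ℂ, g ^ k = 1 → (#{a ∈ A | g * a ∉ A} : ℝ) ≤ 8 * ε * #A) := by
    intro s P s1 s2 hP
    have q : ∀ t (ht : t ∈ Θ) t' (ht' : t' ∈ Θ),
        Units.mk0 (t / t') (div_ne_zero (t0 t ht) (t0 t' ht')) ∈ P := fun t ht t' ht' =>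
      (hP _).2 ((quo t ht t' ht').trans (by gcongr))
    have c : #Θ ≤ #P := by
      rcases Θ.eq_empty_or_nonempty with rfl | ⟨t', ht'⟩
      · simp
      · refine le_trans ?_ (card_image_le (f := fun g : ℂˣ => (g : ℂ) * t'))
        exact card_le_card fun t ht => mem_image.2 ⟨_, q t ht t' ht', div_mul_cancel₀ _ (t0 t' ht')⟩
    refine ⟨c, fun hd => ?_⟩
    obtain ⟨k, k0, k1, k2, k3⟩ := sy_group P
      ((hP 1).2 (by
        have : sy_out A (1 : ℂˣ) = 0 := by simp [sy_out]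
        rw [this, Nat.cast_zero]; nlinarith))
      (fun g hg => (hP _).2 (le_trans (by
        rw [Units.val_inv_eq_inv_val]; exact_mod_cast sy_inv A g.ne_zero) ((hP g).1 hg)))
      (by rw [← Rat.cast_lt (K := ℝ)]; push_cast; exact hd)
    refine ⟨k, k0, c.trans k1, fun t ht t' ht' => k2 _ (q t ht t' ht'), fun z hz => ?_⟩
    obtain ⟨g, hg, g', hg', rfl⟩ := k3 z hz
    have := mul g g'
    have a1 := (hP g).1 hg
    have a2 := (hP g').1 hg'
    change (sy_out A (g * g' : ℂˣ) : ℝ) ≤ _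
    nlinarith
  obtain ⟨P2, p2⟩ := sy_fin hA hne (s := 2 * ε) (by linarith)
  obtain ⟨P4, p4⟩ := sy_fin hA hne (s := 4 * ε) (by linarith)
  obtain ⟨c2, m2⟩ := main _ P2 le_rfl (by linarith) p2
  obtain ⟨-, m4⟩ := main _ P4 (by linarith) le_rfl p4
  by_contra hh
  have a1 := not_lt.1 (mt m2 hh)
  have a2 := not_lt.1 (mt m4 hh)
  have a3 : (#(P2 * P2) : ℝ) ≤ #P4 := Nat.cast_le.2 (card_le_card fun x hx => by
    obtain ⟨g, hg, g', hg', rfl⟩ := mem_mul.1 hx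
    exact (p4 _).2 (by linarith [mul g g', (p2 g).1 hg, (p2 g').1 hg']))
  have a4 := sy_card hA hne (P4 * P4) (s := 8 * ε) fun x hx => by
    obtain ⟨g, hg, g', hg', rfl⟩ := mem_mul.1 hx
    linarith [mul g g', (p4 g).1 hg, (p4 g').1 hg']
  have a5 : (#Θ : ℝ) ≤ #P2 := Nat.cast_le.2 c2
  nlinarith

end Pool.Agent.Lib.MP_990519_co.EF
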